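import Mathlib
import Pool.Agent.TH575.CW.Cyc

/-! Project E (fixed shifts at all but few dyadic scales): decoupling for products of `k` arbitrary
bounded functions at linear forms. -/

set_option autoImplicit false

namespace Pool.Agent.N781.E

open Finset Pool.Agent.TH575.CW

/-- the weight of a residue -/
noncomputable def om (p n : ℕ) : ℝ := (if p ∣ n then (1 : ℝ) else 0) - 1 / p

lemma om_abs {p : ℕ} (hp : 1 ≤ p) (n : ℕ) : |om p n| ≤ 1 := by
  have hp0 : (0 : ℝ) < p := by exact_mod_cast hp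
  have h1 : (1 : ℝ) / p ≤ 1 := by
    rw [div_le_one hp0]
    exact_mod_cast hp
  have h2 : (0 : ℝ) ≤ 1 / p := by positivity
  unfold om
  split_ifs
  · rw [abs_le]
    constructor <;> linarith
  · rw [abs_le]
    constructor <;> linarith

lemma om_add_mul (p n c : ℕ) : om p (n + c * p) = om p n := by
  unfold om
  have : p ∣ n + c * p ↔ p ∣ n := Nat.dvd_add_left (dvd_mul_left p c)
  simp only [this]

lemma sum_abs_om {p N : ℕ} (hp : 1 ≤ p) (hpN : p ∣ N) : ∑ n ∈ range N, |om p n| ≤ 2 * N / p := by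
  have hp0 : (0 : ℝ) < p := by exact_mod_cast hp
  have h1 : ∀ n ∈ range N, |om p n| ≤ (if p ∣ n then (1 : ℝ) else 0) + 1 / p := by
    intro n _
    unfold om
    refine (abs_sub _ _).trans ?_
    apply add_le_add
    · split_ifs <;> simp
    · rw [abs_of_nonneg (by positivity)]
  refine (sum_le_sum h1).trans ?_
  rw [sum_add_distrib, sum_const, card_range, nsmul_eq_mul]
  obtain ⟨c, rfl⟩ := hpN
  have h2 : ∑ n ∈ range (p * c), (if p ∣ n then (1 : ℝ) else 0) ≤ c := by
    rw [sum_boole]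
    have h3 : ((range (p * c)).filter (fun n => p ∣ n)) ⊆ (range c).image (fun m => p * m) := by
      intro n hn
      rw [mem_filter, mem_range] at hn
      obtain ⟨m, rfl⟩ := hn.2
      rw [mem_image]
      refine ⟨m, ?_, rfl⟩
      rw [mem_range]
      exact Nat.lt_of_mul_lt_mul_left hn.1
    have h4 := (card_le_card h3).trans card_image_le
    rw [card_range] at h4
    exact_mod_cast h4
  refine (add_le_add_left h2 _).trans (le_of_eq ?_)
  push_cast
  field_simp
  ring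

/-- comparison of a sum over `range N` of cyclic values with a sum over `[1, y]` of the true ones -/
lemma cmpC (p N y M t s : ℕ) (κ : ℝ) (hκ : 0 ≤ κ) (hp : 1 ≤ p) (hpN : p ∣ N) (hNy : N ≤ y) (hyM : y < N + M)
    (φ ψ : ℕ → ℂ) (h1 : ∀ n, ‖φ n‖ ≤ 1) (h2 : ∀ n, ‖ψ n‖ ≤ 1)
    (h4 : ∀ n, n + t < N → ‖φ n - ψ (n + s * p)‖ ≤ κ) :
    ‖∑ n ∈ range N, (om p n : ℂ) * φ n - ∑ n ∈ Icc 1 y, (om p n : ℂ) * ψ n‖ ≤
      κ * (2 * N / p) + (2 * t + (2 * (s * p) + M + 1)) := by
  have e1 : ‖∑ n ∈ range N, (om p n : ℂ) * φ n - ∑ n ∈ range N, (om p n : ℂ) * ψ (n + s * p)‖ ≤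
      κ * (2 * N / p) + 2 * t := by
    rw [← sum_sub_distrib]
    refine (norm_sum_le _ _).trans ?_
    have e2 : ∀ n ∈ range N, ‖(om p n : ℂ) * φ n - (om p n : ℂ) * ψ (n + s * p)‖ ≤
        κ * |om p n| + if N ≤ n + t then (2 : ℝ) else 0 := by
      intro n _
      rw [← mul_sub, norm_mul, Complex.norm_real, Real.norm_eq_abs]
      have h5 := om_abs hp n
      split_ifs with h
      · have h6 : ‖φ n - ψ (n + s * p)‖ ≤ 2 := by
          refine (norm_sub_le _ _).trans ?_
          have := h1 n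
          have := h2 (n + s * p)
          linarith
        have h7 : |om p n| * ‖φ n - ψ (n + s * p)‖ ≤ 1 * 2 :=
          mul_le_mul h5 h6 (norm_nonneg _) zero_le_one
        have h8 : 0 ≤ κ * |om p n| := by positivity
        linarith
      · rw [add_zero, mul_comm]
        exact mul_le_mul_of_nonneg_right (h4 n (by omega)) (abs_nonneg _)
    refine (sum_le_sum e2).trans ?_
    rw [sum_add_distrib, ← mul_sum]
    apply add_le_add
    · exact mul_le_mul_of_nonneg_left (sum_abs_om hp hpN) hκ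
    · rw [← sum_filter, sum_const, nsmul_eq_mul, mul_comm]
      apply mul_le_mul_of_nonneg_left _ (by norm_num)
      have e7 : (range N).filter (fun n => N ≤ n + t) ⊆ Ico (N - t) N := by
        intro n hn
        rw [mem_filter, mem_range] at hn
        rw [mem_Ico]
        omega
      have e8 := card_le_card e7
      rw [Nat.card_Ico] at e8
      exact_mod_cast (by omega : ((range N).filter (fun n => N ≤ n + t)).card ≤ t)
  have e3 : ∑ n ∈ range N, (om p n : ℂ) * ψ (n + s * p) =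
      ∑ n ∈ Ico (s * p) (N + s * p), (om p n : ℂ) * ψ n := by
    rw [Finset.sum_Ico_eq_sum_range, show N + s * p - s * p = N by omega]
    apply sum_congr rfl
    intro n _
    rw [add_comm (s * p) n, om_add_mul]
  have hb : ∀ n, ‖(om p n : ℂ) * ψ n‖ ≤ 1 := by
    intro n
    rw [norm_mul, Complex.norm_real, Real.norm_eq_abs]
    exact mul_le_one₀ (om_abs hp n) (norm_nonneg _) (h2 n)
  have e4 : ‖∑ n ∈ Ico (s * p) (N + s * p), (om p n : ℂ) * ψ n - ∑ n ∈ Icc 1 y, (om p n : ℂ) * ψ n‖ ≤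
      2 * (s * p) + M + 1 := by
    rw [← Finset.sum_sdiff_sub_sum_sdiff]
    refine (norm_sub_le _ _).trans ?_
    have f1 : ∀ S : Finset ℕ, ‖∑ n ∈ S, (om p n : ℂ) * ψ n‖ ≤ S.card := by
      intro S
      refine (norm_sum_le _ _).trans ?_
      refine (sum_le_sum (fun n _ => hb n)).trans ?_
      rw [sum_const, nsmul_eq_mul, mul_one]
    have f2 : (Ico (s * p) (N + s * p) \ Icc 1 y).card ≤ 1 + s * p := by
      have : Ico (s * p) (N + s * p) \ Icc 1 y ⊆ {0} ∪ Ico N (N + s * p) := by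
        intro n hn
        rw [mem_sdiff, mem_Ico, mem_Icc] at hn
        rw [mem_union, mem_singleton, mem_Ico]
        omega
      refine (card_le_card this).trans ((card_union_le _ _).trans ?_)
      rw [card_singleton, Nat.card_Ico]
      omega
    have f3 : (Icc 1 y \ Ico (s * p) (N + s * p)).card ≤ s * p + M := by
      have : Icc 1 y \ Ico (s * p) (N + s * p) ⊆ Ico 0 (s * p) ∪ Ico N (N + M) := by
        intro n hn
        rw [mem_sdiff, mem_Ico, mem_Icc] at hn
        rw [mem_union, mem_Ico, mem_Ico]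
        omega
      refine (card_le_card this).trans ((card_union_le _ _).trans ?_)
      rw [Nat.card_Ico, Nat.card_Ico]
      omega
    have g1 := f1 (Ico (s * p) (N + s * p) \ Icc 1 y)
    have g2 := f1 (Icc 1 y \ Ico (s * p) (N + s * p))
    have g3 : ((Ico (s * p) (N + s * p) \ Icc 1 y).card : ℝ) ≤ 1 + s * p := by exact_mod_cast f2
    have g4 : ((Icc 1 y \ Ico (s * p) (N + s * p)).card : ℝ) ≤ s * p + M := by exact_mod_cast f3
    linarith
  rw [e3] at e1
  have e5 := norm_sub_le_norm_sub_add_norm_sub (∑ n ∈ range N, (om p n : ℂ) * φ n)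
    (∑ n ∈ Ico (s * p) (N + s * p), (om p n : ℂ) * ψ n) (∑ n ∈ Icc 1 y, (om p n : ℂ) * ψ n)
  linarith

/-- the multiples of `p` -/
lemma sum_multC (p y : ℕ) (hp : 0 < p) (ψ : ℕ → ℂ) :
    ∑ n ∈ Icc 1 y, (om p n : ℂ) * ψ n = ∑ m ∈ Icc 1 (y / p), ψ (p * m) - (∑ n ∈ Icc 1 y, ψ n) / p := by
  have h0 : ∀ n, (om p n : ℂ) * ψ n = (if p ∣ n then ψ n else 0) - ψ n / p := by
    intro n
    unfold om
    push_cast
    split_ifs <;> push_cast <;> ring
  rw [sum_congr rfl fun n _ => h0 n, sum_sub_distrib, sum_div]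
  congr 1
  rw [← sum_filter]
  symm
  apply sum_nbij (fun m => p * m)
  · intro m hm
    rw [mem_Icc] at hm
    rw [mem_filter, mem_Icc]
    refine ⟨⟨?_, ?_⟩, dvd_mul_right _ _⟩
    · exact Nat.mul_pos hp hm.1
    · calc p * m ≤ p * (y / p) := Nat.mul_le_mul_left _ hm.2
        _ ≤ y := Nat.mul_div_le y p
  · intro m _ m' _ h
    exact Nat.eq_of_mul_eq_mul_left hp h
  · intro n hn
    rw [mem_coe, mem_filter, mem_Icc] at hn
    obtain ⟨m, rfl⟩ := hn.2
    refine ⟨m, ?_, rfl⟩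
    rw [mem_coe, mem_Icc]
    constructor
    · rcases Nat.eq_zero_or_pos m with h0 | h0
      · subst h0; omega
      · exact h0
    · rw [Nat.le_div_iff_mul_le hp, mul_comm]
      exact hn.1.2
  · intro m _
    rfl

/-- finite nets in the closed unit disc -/
lemma net (τ : ℝ) (hτ : 0 < τ) : ∃ (T : Type) (_ : Fintype T) (_ : Nonempty T) (v : T → ℂ) (r : ℂ → T),
    (∀ t, ‖v t‖ ≤ 1) ∧ ∀ z : ℂ, ‖z‖ ≤ 1 → ‖v (r z) - z‖ ≤ τ := by
  classical
  obtain ⟨S, hS1, hS2, hS3⟩ := Metric.finite_approx_of_totallyBounded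
    (isCompact_closedBall (0 : ℂ) 1).totallyBounded τ hτ
  have h0 : (0 : ℂ) ∈ Metric.closedBall (0 : ℂ) 1 := by simp
  have hne : ∀ z : ℂ, ‖z‖ ≤ 1 → ∃ t : S, ‖(t : ℂ) - z‖ ≤ τ := by
    intro z hz
    have h1 : z ∈ Metric.closedBall (0 : ℂ) 1 := by
      rw [mem_closedBall_zero_iff]; exact hz
    have h2 := hS3 h1
    rw [Set.mem_iUnion₂] at h2
    obtain ⟨t, ht, h3⟩ := h2
    refine ⟨⟨t, ht⟩, ?_⟩
    rw [Metric.mem_ball, dist_comm, dist_eq_norm] at h3
    exact h3.le
  obtain ⟨t0, -⟩ := hne 0 (by simp)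
  have : Fintype S := hS2.fintype
  refine ⟨S, this, ⟨t0⟩, fun t => (t : ℂ), fun z => if h : ‖z‖ ≤ 1 then (hne z h).choose else t0, ?_, ?_⟩
  · intro t
    have := hS1 t.2
    rwa [mem_closedBall_zero_iff] at this
  · intro z hz
    simp only [dif_pos hz]
    exact (hne z hz).choose_spec

lemma prod_sub_le {k : ℕ} (f g : Fin k → ℂ) (κ : ℝ) (hf : ∀ j, ‖f j‖ ≤ 1) (hg : ∀ j, ‖g j‖ ≤ 1)
    (h : ∀ j, ‖f j - g j‖ ≤ κ) : ‖∏ j, f j - ∏ j, g j‖ ≤ k * κ := by
  induction k with
  | zero => simp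
  | succ k ih =>
    rw [Fin.prod_univ_succ, Fin.prod_univ_succ]
    have h1 := ih (fun j => f j.succ) (fun j => g j.succ) (fun j => hf _) (fun j => hg _) (fun j => h _)
    have h2 : ‖∏ j : Fin k, f j.succ‖ ≤ 1 := by
      rw [norm_prod]
      exact prod_le_one (fun _ _ => norm_nonneg _) (fun j _ => hf _)
    have e : f 0 * ∏ i : Fin k, f i.succ - g 0 * ∏ i : Fin k, g i.succ =
        (f 0 - g 0) * ∏ i : Fin k, f i.succ + g 0 * (∏ i : Fin k, f i.succ - ∏ i : Fin k, g i.succ) := by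
      ring
    rw [e]
    refine (norm_add_le _ _).trans ?_
    rw [norm_mul, norm_mul]
    have h3 : ‖f 0 - g 0‖ * ‖∏ j : Fin k, f j.succ‖ ≤ κ * 1 :=
      mul_le_mul (h 0) h2 (norm_nonneg _) ((norm_nonneg _).trans (h 0))
    have h4 : ‖g 0‖ * ‖∏ j : Fin k, f j.succ - ∏ j : Fin k, g j.succ‖ ≤ 1 * (k * κ) :=
      mul_le_mul (hg 0) h1 (norm_nonneg _) zero_le_one
    push_cast
    linarith

end Pool.Agent.N781.E
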