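import Mathlib
import Pool.Agent.N781.E.Dec

/-! Project E: decoupling for products of `k` arbitrary bounded functions at linear forms, main
lemma. -/

set_option autoImplicit false

namespace Pool.Agent.N781.E

open Finset Pool.Agent.TH575.CW

section

variable {k : ℕ} (a : Fin k → ℕ) (b : Fin k → ℤ) (ha : ∀ j, 1 ≤ a j) (B : ℕ)
  {T : Type} [Nonempty T] (v : T → ℂ) (r : ℂ → T) (F : Fin k → ℤ → ℂ) (N i : ℕ) (θ : ℕ → ℂ)

/-- the displacement of the `j`-th form -/
def uu (p : ℕ) (j : Fin k) : ℕ := ((a j : ℤ) * (B * p) + b j * p).toNat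

def qq (p : ℕ) (j : Fin k) : ℕ := uu a b B p j / a j

def sr (p : ℕ) (j : Fin k) : ℕ := uu a b B p j % a j

/-- the alphabet -/
abbrev Al (T : Type) : Type := (j : Fin k) → Fin (a j) → T

/-- the letters -/
def let_ (n : ℕ) : Al a T := fun j s => r (F j ((a j : ℤ) * ((n % N : ℕ) : ℤ) + (s : ℕ)))

open Classical in
/-- entry of a window -/
noncomputable def ge {W : ℕ} (d : Fin W → Al a T) (e : ℕ) : Al a T :=
  if h : e < W then d ⟨e, h⟩ else Classical.arbitrary _

/-- the product at the position `e` of a window -/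
noncomputable def Ph {W : ℕ} (p : ℕ) (d : Fin W → Al a T) (e : ℕ) : ℂ :=
  ∏ j, v (ge a d (e + qq a b B p j) j ⟨sr a b B p j, Nat.mod_lt _ (ha j)⟩)

/-- the cyclic product -/
noncomputable def cy (p n : ℕ) : ℂ :=
  ∏ j, v (let_ a r F N (n + qq a b B p j) j ⟨sr a b B p j, Nat.mod_lt _ (ha j)⟩)

open Classical in
/-- the function of window and residue -/
noncomputable def ze {W : ℕ} (p : ℕ) (d : Fin W → Al a T) (s : ℕ) : ℝ :=
  if p ∈ QD i (i + 1) then
    ∑ e ∈ range (2 ^ i), if p ∣ s + e then (θ p * Ph a b ha B v p d e).re else 0 else 0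

/-- the discrepancy -/
noncomputable def Dl (p : ℕ) : ℂ := ∑ n ∈ range N, (om p n : ℂ) * cy a b ha B v r F N p n

variable {a b B v r F N i θ}

include ha in
lemma uu_cast (hb : ∀ j, (b j).natAbs ≤ B) (p : ℕ) (j : Fin k) :
    ((uu a b B p j : ℕ) : ℤ) = (a j : ℤ) * (B * p) + b j * p := by
  unfold uu
  apply Int.toNat_of_nonneg
  have h1 : -(B : ℤ) ≤ b j := by
    have := hb j
    omega
  have h2 : (1 : ℤ) ≤ a j := by exact_mod_cast ha j
  have h3 : (0 : ℤ) ≤ p := Nat.cast_nonneg p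
  have h4 : (0 : ℤ) ≤ B := Nat.cast_nonneg B
  have h5 : (0 : ℤ) ≤ (a j : ℤ) * B + b j := by nlinarith
  have h6 : (a j : ℤ) * (B * p) + b j * p = ((a j : ℤ) * B + b j) * p := by ring
  rw [h6]
  positivity

include ha in
lemma qq_le (hb : ∀ j, (b j).natAbs ≤ B) (p : ℕ) (j : Fin k) : qq a b B p j ≤ 2 * (B * p) := by
  unfold qq
  have h0 := ha j
  have h1 := uu_cast ha hb p j
  have h2 : b j ≤ B := by
    have := hb j
    omega
  have h3 : ((uu a b B p j : ℕ) : ℤ) ≤ ((a j * (2 * (B * p)) : ℕ) : ℤ) := by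
    rw [h1]
    push_cast
    have h4 : b j * (p : ℤ) ≤ B * p := mul_le_mul_of_nonneg_right h2 (Nat.cast_nonneg p)
    have h5 : (B : ℤ) * p ≤ a j * (B * p) := by
      have h6 : (1 : ℤ) ≤ a j := by exact_mod_cast h0
      have h7 : (0 : ℤ) ≤ B * p := by positivity
      nlinarith
    linarith
  have h4 : uu a b B p j ≤ a j * (2 * (B * p)) := by exact_mod_cast h3
  exact Nat.div_le_of_le_mul h4

include ha in
lemma arg_eq (hb : ∀ j, (b j).natAbs ≤ B) (p n : ℕ) (j : Fin k) :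
    (a j : ℤ) * ((n + qq a b B p j : ℕ) : ℤ) + (sr a b B p j : ℕ) =
      (a j : ℤ) * ((n + B * p : ℕ) : ℤ) + b j * p := by
  have h1 := uu_cast ha hb p j
  have h2 : a j * qq a b B p j + sr a b B p j = uu a b B p j := by
    unfold qq sr
    exact Nat.div_add_mod _ _
  have h3 : ((a j : ℤ) * (qq a b B p j : ℕ) + (sr a b B p j : ℕ)) = (uu a b B p j : ℕ) := by
    exact_mod_cast h2
  push_cast
  linear_combination h3 + h1

omit [Nonempty T] in
lemma let_per (n : ℕ) : let_ a r F N (n + N) = let_ a r F N n := by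
  unfold let_
  simp only [Nat.add_mod_right]

lemma cy_per (p n : ℕ) : cy a b ha B v r F N p (n + N) = cy a b ha B v r F N p n := by
  unfold cy
  apply prod_congr rfl
  intro j _
  rw [show n + N + qq a b B p j = n + qq a b B p j + N by ring, let_per]

omit [Nonempty T] in
lemma prod_v_le (hv : ∀ t, ‖v t‖ ≤ 1) (t : Fin k → T) : ‖∏ j, v (t j)‖ ≤ 1 := by
  rw [norm_prod]
  exact prod_le_one (fun _ _ => norm_nonneg _) (fun j _ => hv _)

lemma cy_norm (hv : ∀ t, ‖v t‖ ≤ 1) (p n : ℕ) : ‖cy a b ha B v r F N p n‖ ≤ 1 := prod_v_le hv _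

lemma Ph_norm (hv : ∀ t, ‖v t‖ ≤ 1) {W : ℕ} (p : ℕ) (d : Fin W → Al a T) (e : ℕ) :
    ‖Ph a b ha B v p d e‖ ≤ 1 := prod_v_le hv _

lemma ze_abs (hv : ∀ t, ‖v t‖ ≤ 1) (hθ : ∀ p, ‖θ p‖ ≤ 1) {W : ℕ} (p : ℕ) (d : Fin W → Al a T) (s : ℕ) :
    |ze a b ha B v i θ p d s| ≤ 1 := by
  unfold ze
  split_ifs with h
  · have hp : 2 ^ i < p := by
      unfold QD at h
      rw [mem_filter, mem_Ioc] at h
      exact h.1.1
    apply one_mult p _ hp s (fun e => (θ p * Ph a b ha B v p d e).re)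
    intro e
    refine (Complex.abs_re_le_norm _).trans ?_
    rw [norm_mul]
    exact mul_le_one₀ (hθ p) (norm_nonneg _) (Ph_norm ha hv p d e)
  · simp

lemma Ph_win (hb : ∀ j, (b j).natAbs ≤ B) (p n e : ℕ) (hp : p ≤ 2 ^ (i + 1)) (he : e < 2 ^ i) :
    Ph a b ha B v p (win ((4 * B + 1) * 2 ^ i) (let_ a r F N) n) e = cy a b ha B v r F N p (n + e) := by
  unfold Ph cy
  apply prod_congr rfl
  intro j _
  have h1 := qq_le ha hb p j
  have h2 : B * p ≤ B * 2 ^ (i + 1) := Nat.mul_le_mul_left _ hp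
  have h3 : (4 * B + 1) * 2 ^ i = 2 * (B * 2 ^ (i + 1)) + 2 ^ i := by rw [pow_succ]; ring
  have h4 : e + qq a b B p j < (4 * B + 1) * 2 ^ i := by omega
  unfold ge
  rw [dif_pos h4]
  unfold win
  simp only
  rw [show n + (e + qq a b B p j) = n + e + qq a b B p j by ring]

/-- the decoupled sum -/
lemma dec (hb : ∀ j, (b j).natAbs ≤ B)
    (hd : ∀ p ∈ QD i (i + 1), p ∣ N) (hθ : ∀ p, θ p * Dl a b ha B v r F N p = ‖Dl a b ha B v r F N p‖)
    (ε : ℝ)
    (H : ∑ n ∈ range N, |∑ p ∈ QD i (i + 1), Real.log p / 2 ^ i *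
        (ze a b ha B v i θ p (win ((4 * B + 1) * 2 ^ i) (let_ a r F N) n) (n % p) -
          (∑ s ∈ range p, ze a b ha B v i θ p (win ((4 * B + 1) * 2 ^ i) (let_ a r F N) n) s) / p)| ≤
        ε * N) :
    ∑ p ∈ QD i (i + 1), Real.log p * ‖Dl a b ha B v r F N p‖ ≤ ε * N := by
  refine le_trans (le_trans (le_of_eq ?_) (le_abs_self _)) ((abs_sum_le_sum_abs _ _).trans H)
  rw [sum_comm]
  apply sum_congr rfl
  intro p hp
  have hpp := QD_prime hp
  have hp2 : p ≤ 2 ^ (i + 1) := by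
    unfold QD at hp
    rw [mem_filter, mem_Ioc] at hp
    exact hp.1.2
  have h2 := cyc N p (2 ^ i) (hd p hp) (fun n => (θ p * cy a b ha B v r F N p n).re)
    (fun n => by simp only [cy_per])
  have h3 : ∀ n ∈ range N, Real.log p / 2 ^ i *
      (ze a b ha B v i θ p (win ((4 * B + 1) * 2 ^ i) (let_ a r F N) n) (n % p) -
        (∑ s ∈ range p, ze a b ha B v i θ p (win ((4 * B + 1) * 2 ^ i) (let_ a r F N) n) s) / p) =
      Real.log p / 2 ^ i * ∑ e ∈ range (2 ^ i), (θ p * cy a b ha B v r F N p (n + e)).re *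
        ((if p ∣ n % p + e then (1 : ℝ) else 0) - 1 / p) := by
    intro n _
    unfold ze
    simp only [if_pos hp]
    rw [avg_r p _ hpp.pos, sum_div, ← sum_sub_distrib]
    congr 1
    apply sum_congr rfl
    intro e he
    rw [mem_range] at he
    rw [Ph_win ha hb p n e hp2 he]
    split_ifs <;> ring
  rw [sum_congr rfl h3, ← mul_sum, h2]
  have h4 : ∑ n ∈ range N, (θ p * cy a b ha B v r F N p n).re * ((if p ∣ n then (1 : ℝ) else 0) - 1 / p) =
      ‖Dl a b ha B v r F N p‖ := by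
    have h5 : (θ p * Dl a b ha B v r F N p).re = ‖Dl a b ha B v r F N p‖ := by
      rw [hθ p, Complex.ofReal_re]
    rw [← h5]
    unfold Dl
    rw [mul_sum, Complex.re_sum]
    apply sum_congr rfl
    intro n _
    rw [show θ p * ((om p n : ℂ) * cy a b ha B v r F N p n) =
      (om p n : ℂ) * (θ p * cy a b ha B v r F N p n) by ring, Complex.re_ofReal_mul, mul_comm]
    rfl
  rw [h4]
  push_cast
  field_simp

end

lemma theta_le (i : ℕ) : ∑ p ∈ QD i (i + 1), Real.log p ≤ 3 * 2 ^ i := theta_QD i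

/-- Decoupling: at all but few dyadic scales the sum over the multiples of `p` is the sum over all
integers divided by `p`, in mean over the primes of the scale. -/
theorem dec_main (k : ℕ) (a : Fin k → ℕ) (b : Fin k → ℤ) (ha : ∀ j, 1 ≤ a j) (ε : ℝ) (hε : 0 < ε) :
    ∃ (C : ℝ) (i0 : ℕ), 0 < C ∧ 1 ≤ i0 ∧ ∀ J : ℕ, ∃ y0 : ℕ, ∀ y : ℕ, y0 ≤ y →
      ∀ F : Fin k → ℤ → ℂ, (∀ j m, ‖F j m‖ ≤ 1) → ∃ Bad : Finset ℕ, Bad ⊆ Icc i0 J ∧
        ∑ i ∈ Bad, 1 / (i : ℝ) ≤ C ∧ ∀ i ∈ Icc i0 J, i ∉ Bad →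
        ∑ p ∈ QD i (i + 1), Real.log p *
          ‖∑ m ∈ Icc 1 (y / p), ∏ j, F j ((p : ℤ) * (a j * m + b j)) -
            (∑ n ∈ Icc 1 y, ∏ j, F j (a j * n + b j * p)) / p‖ ≤ ε * y := by
  classical
  set B : ℕ := ∑ j, (b j).natAbs with hBdef
  have hb : ∀ j, (b j).natAbs ≤ B := fun j =>
    single_le_sum (f := fun j => (b j).natAbs) (fun _ _ => Nat.zero_le _) (mem_univ j)
  set τ : ℝ := ε / (18 * (k + 1)) with hτ
  have hτ0 : 0 < τ := by positivity
  have hkτ : k * τ ≤ ε / 18 := by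
    rw [hτ]
    have : (k : ℝ) / (k + 1) ≤ 1 := by
      rw [div_le_one (by positivity)]
      linarith
    calc (k : ℝ) * (ε / (18 * (k + 1))) = ε / 18 * (k / (k + 1)) := by
          field_simp
      _ ≤ ε / 18 * 1 := mul_le_mul_of_nonneg_left this (by positivity)
      _ = _ := mul_one _
  obtain ⟨T, hT1, hT2, v, r, hv, hr⟩ := net τ hτ0
  obtain ⟨C, i0, hC, hi0, hdec⟩ := decouple (Al a T) (4 * B + 1) (ε / 3) (by positivity)
  refine ⟨C, i0, hC, hi0, fun J => ?_⟩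
  set M : ℕ := ∏ p ∈ (Icc 1 (2 ^ (J + 1))).filter Nat.Prime, p with hM
  have hM0 : 0 < M := prod_pos fun p hp => (mem_filter.1 hp).2.pos
  set KJ : ℝ := 2 * (2 * (B * 2 ^ (J + 1)) : ℕ) + (2 * (B * 2 ^ (J + 1)) + M + 1) with hKJ
  refine ⟨M + ⌈9 * 2 ^ J * KJ / ε⌉₊, fun y hy F hF => ?_⟩
  have hyM : M ≤ y := by omega
  have hyK : 9 * 2 ^ J * KJ / ε ≤ y := (Nat.le_ceil _).trans (by
    exact_mod_cast (by omega : ⌈9 * 2 ^ J * KJ / ε⌉₊ ≤ y))
  set N := M * (y / M) with hN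
  have hN1 : 1 ≤ N := by
    rw [hN]
    exact Nat.mul_pos hM0 (Nat.div_pos hyM hM0)
  have hNy : N ≤ y := Nat.mul_div_le y M
  have hyN : y < N + M := by
    rw [hN]
    have := Nat.lt_mul_div_succ y hM0
    rw [Nat.mul_add, mul_one] at this
    exact this
  have hMN : M ∣ N := dvd_mul_right _ _
  have hd : ∀ p : ℕ, p.Prime → p ≤ 2 ^ (J + 1) → p ∣ N := by
    intro p hp hpJ
    refine dvd_trans ?_ hMN
    rw [hM]
    apply dvd_prod_of_mem (fun p => p)
    rw [mem_filter, mem_Icc]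
    exact ⟨⟨hp.one_lt.le, hpJ⟩, hp⟩
  obtain ⟨Bad, hB1, hB2, hB3⟩ := hdec J N hN1 hd (let_ a r F N) let_per
  refine ⟨Bad, hB1, hB2, fun i hi hib => ?_⟩
  have hiJ : i ≤ J := (mem_Icc.1 hi).2
  set θ : ℕ → ℂ := fun p => if Dl a b ha B v r F N p = 0 then 1 else
    (starRingEnd ℂ) (Dl a b ha B v r F N p) / ‖Dl a b ha B v r F N p‖ with hθdef
  have hθ1 : ∀ p, ‖θ p‖ ≤ 1 := by
    intro p
    simp only [hθdef]
    split_ifs with h
    · simp
    · rw [norm_div, RCLike.norm_conj, Complex.norm_real, norm_norm, div_self]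
      exact norm_ne_zero_iff.2 h
  have hθ2 : ∀ p, θ p * Dl a b ha B v r F N p = ‖Dl a b ha B v r F N p‖ := by
    intro p
    simp only [hθdef]
    split_ifs with h
    · rw [h]; simp
    · have h1 : (‖Dl a b ha B v r F N p‖ : ℂ) ≠ 0 := by
        exact_mod_cast norm_ne_zero_iff.2 h
      rw [div_mul_eq_mul_div, div_eq_iff h1, mul_comm, Complex.mul_conj, Complex.normSq_eq_norm_sq]
      push_cast
      ring
  have hdi : ∀ p ∈ QD i (i + 1), p ∣ N := by
    intro p hp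
    have h1 := QD_prime hp
    unfold QD at hp
    rw [mem_filter, mem_Ioc] at hp
    refine hd p h1 (hp.1.2.trans (Nat.pow_le_pow_right (by norm_num) (by omega)))
  have h1 := dec (i := i) (θ := θ) ha hb hdi hθ2 (ε / 3)
    (hB3 i hi hib (ze a b ha B v i θ) (fun p d s => ze_abs ha hv hθ1 p d s))
  have h2i : (0 : ℝ) < 2 ^ i := by positivity
  have hlog : ∀ p ∈ QD i (i + 1), 0 ≤ Real.log p := fun p hp =>
    Real.log_nonneg (by exact_mod_cast (QD_prime hp).one_lt.le)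
  have hcmp : ∀ p ∈ QD i (i + 1),
      ‖∑ m ∈ Icc 1 (y / p), ∏ j, F j ((p : ℤ) * (a j * m + b j)) -
        (∑ n ∈ Icc 1 y, ∏ j, F j (a j * n + b j * p)) / p‖ ≤
      ‖Dl a b ha B v r F N p‖ + (ε / 18 * (2 * y / 2 ^ i) + KJ) := by
    intro p hp
    have hpp := QD_prime hp
    have hp12 : 2 ^ i < p ∧ p ≤ 2 ^ (i + 1) := by
      unfold QD at hp
      rw [mem_filter, mem_Ioc] at hp
      exact hp.1
    have hpJ : p ≤ 2 ^ (J + 1) := hp12.2.trans (Nat.pow_le_pow_right (by norm_num) (by omega))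
    set ψ : ℕ → ℂ := fun n => ∏ j, F j (a j * n + b j * p) with hψ
    have e1 := sum_multC p y hpp.pos ψ
    have e2 : ∑ m ∈ Icc 1 (y / p), ψ (p * m) = ∑ m ∈ Icc 1 (y / p), ∏ j, F j ((p : ℤ) * (a j * m + b j)) := by
      apply sum_congr rfl
      intro m _
      simp only [hψ]
      apply prod_congr rfl
      intro j _
      congr 1
      push_cast
      ring
    rw [e2] at e1
    rw [← e1]
    have hψ1 : ∀ n, ‖ψ n‖ ≤ 1 := by
      intro n
      simp only [hψ]
      rw [norm_prod]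
      exact prod_le_one (fun _ _ => norm_nonneg _) (fun j _ => hF j _)
    have h4 := cmpC p N y M (2 * (B * p)) B (k * τ) (by positivity) hpp.one_lt.le (hdi p hp) hNy hyN
      (cy a b ha B v r F N p) ψ (cy_norm ha hv p) hψ1 (by
        intro n hn
        simp only [hψ]
        unfold cy
        refine prod_sub_le _ _ τ (fun j => hv _) (fun j => hF j _) (fun j => ?_)
        have h5 := qq_le ha hb p j
        unfold let_
        simp only
        rw [Nat.mod_eq_of_lt (by omega), arg_eq ha hb p n j]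
        exact hr _ (hF j _))
    have h5 : ‖∑ n ∈ Icc 1 y, (om p n : ℂ) * ψ n‖ ≤ ‖Dl a b ha B v r F N p‖ +
        ‖∑ n ∈ range N, (om p n : ℂ) * cy a b ha B v r F N p n - ∑ n ∈ Icc 1 y, (om p n : ℂ) * ψ n‖ := by
      have := norm_sub_norm_le (∑ n ∈ Icc 1 y, (om p n : ℂ) * ψ n) (Dl a b ha B v r F N p)
      rw [norm_sub_rev] at this
      unfold Dl at this ⊢
      linarith
    refine h5.trans (add_le_add le_rfl (h4.trans ?_))
    apply add_le_add
    · apply mul_le_mul hkτ _ (by positivity) (by positivity)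
      have hNy' : (N : ℝ) ≤ y := by exact_mod_cast hNy
      have hp' : (2 : ℝ) ^ i ≤ p := by exact_mod_cast hp12.1.le
      exact div_le_div₀ (by positivity) (by linarith) h2i hp'
    · rw [hKJ]
      have g1 : (B : ℝ) * p ≤ B * 2 ^ (J + 1) := by
        apply mul_le_mul_of_nonneg_left _ (Nat.cast_nonneg B)
        exact_mod_cast hpJ
      push_cast
      linarith
  calc ∑ p ∈ QD i (i + 1), Real.log p *
          ‖∑ m ∈ Icc 1 (y / p), ∏ j, F j ((p : ℤ) * (a j * m + b j)) -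
            (∑ n ∈ Icc 1 y, ∏ j, F j (a j * n + b j * p)) / p‖
      ≤ ∑ p ∈ QD i (i + 1), (Real.log p * ‖Dl a b ha B v r F N p‖ +
          Real.log p * (ε / 18 * (2 * y / 2 ^ i) + KJ)) := by
        apply sum_le_sum
        intro p hp
        rw [← mul_add]
        exact mul_le_mul_of_nonneg_left (hcmp p hp) (hlog p hp)
    _ = ∑ p ∈ QD i (i + 1), Real.log p * ‖Dl a b ha B v r F N p‖ +
          (∑ p ∈ QD i (i + 1), Real.log p) * (ε / 18 * (2 * y / 2 ^ i) + KJ) := by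
        rw [sum_add_distrib, sum_mul]
    _ ≤ ε / 3 * N + (3 * 2 ^ i) * (ε / 18 * (2 * y / 2 ^ i) + KJ) := by
        apply add_le_add h1
        exact mul_le_mul_of_nonneg_right (theta_le i) (by positivity)
    _ ≤ ε * y := by
        have g1 : ε / 3 * N ≤ ε / 3 * y := mul_le_mul_of_nonneg_left (by exact_mod_cast hNy) (by positivity)
        have g2 : (3 * 2 ^ i) * (ε / 18 * (2 * y / 2 ^ i)) = ε / 3 * y := by
          field_simp
          ring
        have g3 : (3 * 2 ^ i) * KJ ≤ ε / 3 * y := by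
          have g4 : (2 : ℝ) ^ i ≤ 2 ^ J := pow_le_pow_right₀ one_le_two hiJ
          have g5 : 0 ≤ KJ := by rw [hKJ]; positivity
          rw [div_le_iff₀ hε] at hyK
          nlinarith [mul_le_mul_of_nonneg_right g4 g5]
        rw [mul_add, g2]
        linarith

end Pool.Agent.N781.E
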