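import Mathlib
import Pool.Agent.N781.E.Dec2

/-! Project E: from the correlations along almost all prime dilates to fixed shifts. -/

set_option autoImplicit false

namespace Pool.Agent.N781.E

open Finset Pool.Agent.TH575.CW

/-- the correlation sum at fixed shifts -/
noncomputable def SS {k : ℕ} (a : Fin k → ℕ) (b : Fin k → ℤ) (G : Fin k → ℤ → ℂ) (y : ℕ) : ℂ :=
  ∑ m ∈ Icc 1 y, ∏ j, G j (a j * m + b j)

/-- the correlation sum at the dilate `p` -/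
noncomputable def CS {k : ℕ} (a : Fin k → ℕ) (b : Fin k → ℤ) (F : Fin k → ℤ → ℂ) (y p : ℕ) : ℂ :=
  ∑ n ∈ Icc 1 y, ∏ j, F j (a j * n + b j * p)

/-- `∏ F_j (p m_j) = g(p) ∏ G_j (m_j)` if `p` divides no `m_j` -/
def Rel {k : ℕ} (F G : Fin k → ℤ → ℂ) (g : ℕ → ℂ) : Prop :=
  ∀ p : ℕ, p.Prime → ∀ m : Fin k → ℤ, (∀ j, ¬ (p : ℤ) ∣ m j) →
    ∏ j, F j ((p : ℤ) * m j) = g p * ∏ j, G j (m j)

lemma prod_norm_le {k : ℕ} {F : Fin k → ℤ → ℂ} (hF : ∀ j m, ‖F j m‖ ≤ 1) (m : Fin k → ℤ) :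
    ‖∏ j, F j (m j)‖ ≤ 1 := by
  rw [norm_prod]
  exact prod_le_one (fun _ _ => norm_nonneg _) (fun j _ => hF j _)

lemma SS_slow {k : ℕ} (a : Fin k → ℕ) (b : Fin k → ℤ) {G : Fin k → ℤ → ℂ} (hG : ∀ j m, ‖G j m‖ ≤ 1)
    (u v : ℕ) (huv : u ≤ v) : ‖SS a b G v - SS a b G u‖ ≤ (v : ℝ) - u := by
  unfold SS
  have h1 : Icc 1 v = Icc 1 u ∪ Ioc u v := by
    ext n; simp only [mem_Icc, mem_union, mem_Ioc]; omega
  have h2 : Disjoint (Icc 1 u) (Ioc u v) := by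
    rw [disjoint_left]; intro n; simp only [mem_Icc, mem_Ioc]; omega
  rw [h1, sum_union h2, add_sub_cancel_left]
  refine (norm_sum_le _ _).trans ?_
  refine (sum_le_sum (fun n _ => prod_norm_le hG _)).trans ?_
  rw [sum_const, Nat.card_Ioc, nsmul_eq_mul, mul_one, Nat.cast_sub huv]

/-- solutions of a linear congruence -/
lemma card_lin (p Y : ℕ) (a : ℕ) (b : ℤ) (hp : p.Prime) (ha : ¬ p ∣ a) :
    (((Icc 1 Y).filter (fun m : ℕ => (p : ℤ) ∣ (a : ℤ) * m + b)).card : ℝ) ≤ (Y : ℝ) / p + 1 := by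
  have hp0 : (0 : ℝ) < p := by exact_mod_cast hp.pos
  -- injectivity modulo `p`
  have hinj : ∀ m ∈ (Icc 1 Y).filter (fun m : ℕ => (p : ℤ) ∣ (a : ℤ) * m + b),
      ∀ m' ∈ (Icc 1 Y).filter (fun m : ℕ => (p : ℤ) ∣ (a : ℤ) * m + b), m % p = m' % p := by
    intro m hm m' hm'
    rw [mem_filter] at hm hm'
    have h1 : (p : ℤ) ∣ (a : ℤ) * (m - m') := by
      have := dvd_sub hm.2 hm'.2
      have e : (a : ℤ) * m + b - ((a : ℤ) * m' + b) = (a : ℤ) * (m - m') := by ring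
      rwa [e] at this
    have hpi : Prime (p : ℤ) := Nat.prime_iff_prime_int.1 hp
    rcases hpi.dvd_or_dvd h1 with h2 | h2
    · exact absurd (by exact_mod_cast h2) ha
    · have h3 : (m' : ℤ) ≡ m [ZMOD p] := (Int.modEq_iff_dvd).2 h2
      have h4 : m' ≡ m [MOD p] := (Int.natCast_modEq_iff).1 h3
      exact h4.symm
  rcases Finset.eq_empty_or_nonempty ((Icc 1 Y).filter (fun m : ℕ => (p : ℤ) ∣ (a : ℤ) * m + b)) with h0 | ⟨m0, hm0⟩
  · rw [h0, card_empty]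
    push_cast
    positivity
  · have hsub : ((Icc 1 Y).filter (fun m : ℕ => (p : ℤ) ∣ (a : ℤ) * m + b)).card ≤ Y / p + 1 := by
      have h1 : ((Icc 1 Y).filter (fun m : ℕ => (p : ℤ) ∣ (a : ℤ) * m + b)).card ≤ (range (Y / p + 1)).card := by
        apply card_le_card_of_injOn (fun m => m / p)
        · intro m hm
          rw [mem_coe, mem_filter, mem_Icc] at hm
          rw [mem_coe, mem_range]
          exact Nat.lt_succ_of_le (Nat.div_le_div_right hm.1.2)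
        · intro m hm m' hm' hmm
          have h2 := hinj m hm m' hm'
          simp only at hmm
          have h3 := Nat.div_add_mod m p
          have h4 := Nat.div_add_mod m' p
          rw [hmm, h2] at h3
          omega
      rwa [card_range] at h1
    have h5 : ((Y / p : ℕ) : ℝ) ≤ (Y : ℝ) / p := Nat.cast_div_le
    have h6 : (((Icc 1 Y).filter (fun m : ℕ => (p : ℤ) ∣ (a : ℤ) * m + b)).card : ℝ) ≤ ((Y / p : ℕ) : ℝ) + 1 := by
      exact_mod_cast hsub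
    linarith

lemma rel_sum {k : ℕ} (a : Fin k → ℕ) (b : Fin k → ℤ) {F G : Fin k → ℤ → ℂ} {g : ℕ → ℂ}
    (hF : ∀ j m, ‖F j m‖ ≤ 1) (hG : ∀ j m, ‖G j m‖ ≤ 1) (hg : ∀ p, ‖g p‖ ≤ 1) (hR : Rel F G g)
    (p Y : ℕ) (hp : p.Prime) (hpa : ∀ j, ¬ p ∣ a j) :
    ‖∑ m ∈ Icc 1 Y, ∏ j, F j ((p : ℤ) * (a j * m + b j)) - g p * SS a b G Y‖ ≤ 2 * (k * ((Y : ℝ) / p + 1)) := by
  classical
  unfold SS
  rw [mul_sum, ← sum_sub_distrib]
  refine (norm_sum_le _ _).trans ?_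
  have h1 : ∀ m ∈ Icc 1 Y, ‖∏ j, F j ((p : ℤ) * (a j * m + b j)) - g p * ∏ j, G j (a j * m + b j)‖ ≤
      2 * ∑ j : Fin k, if (p : ℤ) ∣ (a j : ℤ) * m + b j then (1 : ℝ) else 0 := by
    intro m _
    by_cases hex : ∃ j, (p : ℤ) ∣ (a j : ℤ) * m + b j
    · obtain ⟨j0, hj0⟩ := hex
      have h2 : (1 : ℝ) ≤ ∑ j : Fin k, if (p : ℤ) ∣ (a j : ℤ) * m + b j then (1 : ℝ) else 0 := by
        have h3 := single_le_sum (f := fun j : Fin k => if (p : ℤ) ∣ (a j : ℤ) * m + b j then (1 : ℝ) else 0)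
          (fun j _ => by positivity) (mem_univ j0)
        simp only [if_pos hj0] at h3
        exact h3
      have h4 := norm_sub_le (∏ j, F j ((p : ℤ) * (a j * m + b j))) (g p * ∏ j, G j (a j * m + b j))
      have h5 := prod_norm_le hF (fun j => (p : ℤ) * (a j * m + b j))
      have h6 : ‖g p * ∏ j, G j (a j * m + b j)‖ ≤ 1 := by
        rw [norm_mul]
        exact mul_le_one₀ (hg p) (norm_nonneg _) (prod_norm_le hG (fun j => (a j * m + b j)))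
      linarith
    · push Not at hex
      rw [hR p hp (fun j => (a j : ℤ) * m + b j) hex, sub_self, norm_zero]
      positivity
  refine (sum_le_sum h1).trans ?_
  rw [← mul_sum, sum_comm]
  apply mul_le_mul_of_nonneg_left _ (by norm_num)
  have h2 : ∀ j ∈ (univ : Finset (Fin k)), ∑ m ∈ Icc 1 Y, (if (p : ℤ) ∣ (a j : ℤ) * m + b j then (1 : ℝ) else 0) ≤
      (Y : ℝ) / p + 1 := by
    intro j _
    rw [sum_boole]
    exact card_lin p Y (a j) (b j) hp (hpa j)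
  refine (sum_le_sum h2).trans ?_
  rw [sum_const, card_univ, Fintype.card_fin, nsmul_eq_mul]

lemma PL_mem {δ : ℝ} {i p : ℕ} (hp : p ∈ PL δ i) : p ∈ QD i (i + 1) := (mem_filter.1 hp).1

lemma PL_lt' {δ : ℝ} {i p : ℕ} (hp : p ∈ PL δ i) :
    2 ^ i < p ∧ p ≤ 2 ^ (i + 1) ∧ p.Prime ∧ (p : ℝ) ≤ (1 + δ) * 2 ^ i := by
  have h := PL_mem hp
  unfold QD at h
  rw [mem_filter, mem_Ioc] at h
  exact ⟨h.1.1, h.1.2, h.2, (mem_filter.1 hp).2⟩

/-- slow variation over the primes of `PL` -/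
lemma div_slow {δ : ℝ} (hδ : 0 < δ) (y i p : ℕ) (hp : p ∈ PL δ i) :
    ((y / 2 ^ i : ℕ) : ℝ) - ((y / p : ℕ) : ℝ) ≤ δ * (y / 2 ^ i) + 1 := by
  obtain ⟨hp1, hp2, hpp, hpδ⟩ := PL_lt' hp
  have h2i : (0 : ℝ) < 2 ^ i := by positivity
  have hp0' : (0 : ℝ) < p := by exact_mod_cast hpp.pos
  have hy0 : (0 : ℝ) ≤ y := Nat.cast_nonneg y
  have g1 : ((y / 2 ^ i : ℕ) : ℝ) ≤ y / 2 ^ i := by
    calc ((y / 2 ^ i : ℕ) : ℝ) ≤ (y : ℝ) / ((2 ^ i : ℕ) : ℝ) := Nat.cast_div_le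
      _ = _ := by push_cast; rfl
  have g2 : (y : ℝ) / p - 1 ≤ ((y / p : ℕ) : ℝ) := by
    have := Nat.lt_div_mul_add (a := y) hpp.pos
    have g3 : (y : ℝ) < ((y / p : ℕ) : ℝ) * p + p := by exact_mod_cast this
    have g4 : (y : ℝ) / p < ((y / p : ℕ) : ℝ) + 1 := by
      rw [div_lt_iff₀ hp0']
      linarith
    linarith
  have g3 : (y : ℝ) / ((1 + δ) * 2 ^ i) ≤ y / p := div_le_div_of_nonneg_left hy0 hp0' hpδ
  have g4 : (1 - δ) * (y / 2 ^ i) ≤ (y : ℝ) / ((1 + δ) * 2 ^ i) := by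
    rw [le_div_iff₀ (by positivity)]
    have : (1 - δ) * ((y : ℝ) / 2 ^ i) * ((1 + δ) * 2 ^ i) = (1 - δ ^ 2) * y := by
      field_simp
      ring
    rw [this]
    have h9 : 0 ≤ δ ^ 2 * y := by positivity
    have h10 : (1 - δ ^ 2) * (y : ℝ) = y - δ ^ 2 * y := by ring
    rw [h10]
    linarith
  have g5 : (1 - δ) * ((y : ℝ) / 2 ^ i) = y / 2 ^ i - δ * (y / 2 ^ i) := by ring
  rw [g5] at g4
  linarith

/-- the weight of a scale -/
noncomputable def WT (δ : ℝ) (g : ℕ → ℂ) (i : ℕ) : ℝ := ∑ p ∈ PL δ i, Real.log p * ‖g p‖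

/-- the bound at a good scale -/
lemma good {k : ℕ} (a : Fin k → ℕ) (b : Fin k → ℤ) {F F' G G' : Fin k → ℤ → ℂ} {g : ℕ → ℂ}
    (hF : ∀ j m, ‖F j m‖ ≤ 1) (hF' : ∀ j m, ‖F' j m‖ ≤ 1) (hG : ∀ j m, ‖G j m‖ ≤ 1)
    (hG' : ∀ j m, ‖G' j m‖ ≤ 1) (hg : ∀ p, ‖g p‖ ≤ 1) (hR : Rel F G g) (hR' : Rel F' G' g)
    (ε' ε1 δ : ℝ) (hδ : 0 < δ) (i y : ℕ) (hia : ∀ j, a j ≤ 2 ^ i) (ha : ∀ j, 1 ≤ a j)
    (h1 : ∑ p ∈ QD i (i + 1), Real.log p *
          ‖∑ m ∈ Icc 1 (y / p), ∏ j, F j ((p : ℤ) * (a j * m + b j)) - CS a b F y p / p‖ ≤ ε' * y)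
    (h2 : ∑ p ∈ QD i (i + 1), Real.log p *
          ‖∑ m ∈ Icc 1 (y / p), ∏ j, F' j ((p : ℤ) * (a j * m + b j)) - CS a b F' y p / p‖ ≤ ε' * y)
    (hav : ∑ p ∈ QD i (i + 1), Real.log p / 2 ^ i * ‖CS a b F y p - CS a b F' y p‖ ≤ ε1 * y)
    (hW : δ / 4 * 2 ^ i ≤ WT δ g i) :
    ‖SS a b G (y / 2 ^ i) - SS a b G' (y / 2 ^ i)‖ ≤
      4 / δ * ((2 * ε' + ε1) * (y / 2 ^ i) + 12 * k * (y / 4 ^ i + 1)) + 2 * (δ * (y / 2 ^ i) + 1) := by
  have h2i : (0 : ℝ) < 2 ^ i := by positivity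
  have hlog : ∀ p ∈ QD i (i + 1), 0 ≤ Real.log p := fun p hp =>
    Real.log_nonneg (by exact_mod_cast (QD_prime hp).one_lt.le)
  set X := ‖SS a b G (y / 2 ^ i) - SS a b G' (y / 2 ^ i)‖ with hX
  set E0 : ℝ := 2 * (δ * (y / 2 ^ i) + 1) with hE0
  set A : ℕ → ℝ := fun p => ‖∑ m ∈ Icc 1 (y / p), ∏ j, F j ((p : ℤ) * (a j * m + b j)) - CS a b F y p / p‖ with hA
  set A' : ℕ → ℝ := fun p => ‖∑ m ∈ Icc 1 (y / p), ∏ j, F' j ((p : ℤ) * (a j * m + b j)) - CS a b F' y p / p‖ with hA'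
  set D : ℕ → ℝ := fun p => ‖CS a b F y p - CS a b F' y p‖ with hD
  have key : ∀ p ∈ PL δ i, (Real.log p * ‖g p‖) * (X - E0) ≤
      Real.log p * A p + Real.log p * A' p + Real.log p / 2 ^ i * D p +
        Real.log p * (4 * (k * ((y : ℝ) / 4 ^ i + 1))) := by
    intro p hp
    obtain ⟨hp1, hp2, hpp, hpδ⟩ := PL_lt' hp
    have hp0' : (0 : ℝ) < p := by exact_mod_cast hpp.pos
    have hp1' : (2 : ℝ) ^ i < p := by exact_mod_cast hp1
    have hpa : ∀ j, ¬ p ∣ a j := by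
      intro j hdv
      have h3 := Nat.le_of_dvd (ha j) hdv
      have h4 := hia j
      omega
    have hlp : 0 ≤ Real.log p := hlog p (PL_mem hp)
    have k1 := rel_sum a b hF hG hg hR p (y / p) hpp hpa
    have k2 := rel_sum a b hF' hG' hg hR' p (y / p) hpp hpa
    have k3 : ((y / p : ℕ) : ℝ) / p ≤ (y : ℝ) / 4 ^ i := by
      have g1 : ((y / p : ℕ) : ℝ) ≤ y / p := Nat.cast_div_le
      calc ((y / p : ℕ) : ℝ) / p ≤ (y / p : ℝ) / p := div_le_div_of_nonneg_right g1 hp0'.le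
        _ = (y : ℝ) / (p * p) := by rw [div_div]
        _ ≤ (y : ℝ) / (2 ^ i * 2 ^ i) :=
            div_le_div_of_nonneg_left (Nat.cast_nonneg y) (by positivity)
              (mul_le_mul hp1'.le hp1'.le h2i.le hp0'.le)
        _ = _ := by
            congr 1
            rw [← mul_pow]
            norm_num
    have hpy : y / p ≤ y / 2 ^ i := Nat.div_le_div_left hp1.le (by positivity)
    have k4 := SS_slow a b hG (y / p) (y / 2 ^ i) hpy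
    have k5 := SS_slow a b hG' (y / p) (y / 2 ^ i) hpy
    have k6 := div_slow hδ y i p hp
    set U := SS a b G (y / p) with hU
    set U' := SS a b G' (y / p) with hU'
    set V := SS a b G (y / 2 ^ i) with hV
    set V' := SS a b G' (y / 2 ^ i) with hV'
    set P := ∑ m ∈ Icc 1 (y / p), ∏ j, F j ((p : ℤ) * (a j * m + b j)) with hP
    set P' := ∑ m ∈ Icc 1 (y / p), ∏ j, F' j ((p : ℤ) * (a j * m + b j)) with hP'
    set C := CS a b F y p with hC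
    set C' := CS a b F' y p with hC'
    have f1 : X - E0 ≤ ‖U - U'‖ := by
      have e1 : V - V' = (V - U) - (V' - U') + (U - U') := by ring
      have e2 : X ≤ ‖V - U‖ + ‖V' - U'‖ + ‖U - U'‖ := by
        rw [hX, e1]
        refine (norm_add_le _ _).trans ?_
        have := norm_sub_le (V - U) (V' - U')
        linarith
      rw [hE0]
      linarith
    have f2 : ‖g p‖ * ‖U - U'‖ ≤ A p + A' p + D p / p + 4 * (k * ((y : ℝ) / 4 ^ i + 1)) := by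
      rw [← norm_mul]
      have e1 : g p * (U - U') = -(P - g p * U) + (P' - g p * U') + (P - C / p) - (P' - C' / p) + (C - C') / p := by
        field_simp
        ring
      rw [e1]
      have t1 := norm_add_le (-(P - g p * U) + (P' - g p * U') + (P - C / p) - (P' - C' / p)) ((C - C') / p)
      have t2 := norm_sub_le (-(P - g p * U) + (P' - g p * U') + (P - C / p)) (P' - C' / p)
      have t3 := norm_add_le (-(P - g p * U) + (P' - g p * U')) (P - C / p)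
      have t4 := norm_add_le (-(P - g p * U)) (P' - g p * U')
      rw [norm_neg] at t4
      have t5 : ‖(C - C') / (p : ℂ)‖ = D p / p := by
        rw [norm_div, Complex.norm_natCast]
      have t6 : (k : ℝ) * (((y / p : ℕ) : ℝ) / p + 1) ≤ k * ((y : ℝ) / 4 ^ i + 1) :=
        mul_le_mul_of_nonneg_left (by linarith) (Nat.cast_nonneg k)
      rw [t5] at t1
      simp only [hA, hA']
      linarith
    have f3 : D p / p ≤ D p / 2 ^ i :=
      div_le_div_of_nonneg_left (norm_nonneg _) h2i hp1'.le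
    have f4 : ‖g p‖ * (X - E0) ≤ ‖g p‖ * ‖U - U'‖ := mul_le_mul_of_nonneg_left f1 (norm_nonneg _)
    have f5 : ‖g p‖ * (X - E0) ≤ A p + A' p + D p / 2 ^ i + 4 * (k * ((y : ℝ) / 4 ^ i + 1)) := by linarith
    have f6 := mul_le_mul_of_nonneg_left f5 hlp
    calc (Real.log p * ‖g p‖) * (X - E0) = Real.log p * (‖g p‖ * (X - E0)) := by ring
      _ ≤ _ := f6
      _ = _ := by ring
  have hWX : WT δ g i * (X - E0) ≤ 2 * ε' * y + ε1 * y + 3 * 2 ^ i * (4 * (k * ((y : ℝ) / 4 ^ i + 1))) := by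
    unfold WT
    rw [sum_mul]
    refine (sum_le_sum key).trans ?_
    rw [sum_add_distrib, sum_add_distrib, sum_add_distrib, ← sum_mul]
    have m1 : ∑ p ∈ PL δ i, Real.log p * A p ≤ ε' * y :=
      (sum_le_sum_of_subset_of_nonneg (filter_subset _ _)
        (fun p hp _ => mul_nonneg (hlog p hp) (norm_nonneg _))).trans h1
    have m2 : ∑ p ∈ PL δ i, Real.log p * A' p ≤ ε' * y :=
      (sum_le_sum_of_subset_of_nonneg (filter_subset _ _)
        (fun p hp _ => mul_nonneg (hlog p hp) (norm_nonneg _))).trans h2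
    have m3 : ∑ p ∈ PL δ i, Real.log p / 2 ^ i * D p ≤ ε1 * y :=
      (sum_le_sum_of_subset_of_nonneg (filter_subset _ _)
        (fun p hp _ => mul_nonneg (div_nonneg (hlog p hp) h2i.le) (norm_nonneg _))).trans hav
    have m4 : ∑ p ∈ PL δ i, Real.log p ≤ 3 * 2 ^ i :=
      (sum_le_sum_of_subset_of_nonneg (filter_subset _ _)
        (fun p hp _ => hlog p hp)).trans (theta_le i)
    have m5 : (∑ p ∈ PL δ i, Real.log p) * (4 * (k * ((y : ℝ) / 4 ^ i + 1))) ≤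
        3 * 2 ^ i * (4 * (k * ((y : ℝ) / 4 ^ i + 1))) := mul_le_mul_of_nonneg_right m4 (by positivity)
    linarith
  by_cases hneg : X - E0 ≤ 0
  · have h5 : 0 ≤ ε' * y :=
      (sum_nonneg fun p hp => mul_nonneg (hlog p hp) (norm_nonneg _)).trans h1
    have h6 : 0 ≤ ε1 * y :=
      (sum_nonneg fun p hp => mul_nonneg (div_nonneg (hlog p hp) h2i.le) (norm_nonneg _)).trans hav
    have h7 : 0 ≤ (2 * ε' + ε1) * (y / 2 ^ i) := by
      have : (2 * ε' + ε1) * ((y : ℝ) / 2 ^ i) = (2 * (ε' * y) + ε1 * y) / 2 ^ i := by ring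
      rw [this]
      positivity
    have h8 : 0 ≤ 4 / δ * ((2 * ε' + ε1) * (y / 2 ^ i) + 12 * k * (y / 4 ^ i + 1)) := by positivity
    linarith
  · push Not at hneg
    have h5 : δ / 4 * 2 ^ i * (X - E0) ≤ WT δ g i * (X - E0) := mul_le_mul_of_nonneg_right hW hneg.le
    have h6 : δ / 4 * 2 ^ i * (X - E0) ≤
        2 * ε' * y + ε1 * y + 3 * 2 ^ i * (4 * (k * ((y : ℝ) / 4 ^ i + 1))) := h5.trans hWX
    have h7 : X - E0 ≤ 4 / δ * ((2 * ε' + ε1) * (y / 2 ^ i) + 12 * k * (y / 4 ^ i + 1)) := by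
      have h8 : X - E0 ≤ (2 * ε' * y + ε1 * y + 3 * 2 ^ i * (4 * (k * ((y : ℝ) / 4 ^ i + 1)))) / (δ / 4 * 2 ^ i) := by
        rw [le_div_iff₀ (by positivity)]
        linarith
      refine h8.trans (le_of_eq ?_)
      field_simp
      ring
    linarith

/-- **The engine.** -/
theorem eng (k : ℕ) (a : Fin k → ℕ) (b : Fin k → ℤ) (ha : ∀ j, 1 ≤ a j) (ε : ℝ) (hε : 0 < ε) :
    ∃ (ε1 C δ : ℝ) (i1 : ℕ), 0 < ε1 ∧ 0 < C ∧ 0 < δ ∧ δ ≤ 1 ∧ 1 ≤ i1 ∧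
      ∀ i' : ℕ, i1 ≤ i' → ∀ J : ℕ, ∃ y0 : ℕ, ∀ y : ℕ, y0 ≤ y →
      ∀ (F F' G G' : Fin k → ℤ → ℂ) (g : ℕ → ℂ), (∀ j m, ‖F j m‖ ≤ 1) → (∀ j m, ‖F' j m‖ ≤ 1) →
        (∀ j m, ‖G j m‖ ≤ 1) → (∀ j m, ‖G' j m‖ ≤ 1) → (∀ p, ‖g p‖ ≤ 1) → Rel F G g → Rel F' G' g →
        (∀ i ∈ Icc i' J, ∑ p ∈ QD i (i + 1), Real.log p / 2 ^ i * ‖CS a b F y p - CS a b F' y p‖ ≤ ε1 * y) →
        ∑ i ∈ (Icc 1 J).filter (fun i => ε * ((y : ℝ) / 2 ^ i) <
            ‖SS a b G (y / 2 ^ i) - SS a b G' (y / 2 ^ i)‖ ∧ δ / 4 * 2 ^ i ≤ WT δ g i), 1 / (i : ℝ) ≤ C + i' := by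
  classical
  set δ : ℝ := min (ε / 8) 1 with hδ
  have hδ0 : 0 < δ := by rw [hδ]; positivity
  have hδ1 : δ ≤ 1 := min_le_right _ _
  have hδε : δ ≤ ε / 8 := min_le_left _ _
  set ε' : ℝ := ε * δ / 48 with hε'
  have hε'0 : 0 < ε' := by positivity
  obtain ⟨C0, i0, hC0, hi0, hdec⟩ := dec_main k a b ha ε' hε'0
  obtain ⟨i3, hi3⟩ := pow_unbounded_of_one_lt (48 * k * 8 / (ε * δ) + 1) (one_lt_two (α := ℝ))
  set i1 := i0 + i3 + ∑ j, a j with hi1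
  refine ⟨ε', 2 * C0, δ, i1, hε'0, by positivity, hδ0, hδ1, by omega, fun i' hi' J => ?_⟩
  obtain ⟨y1, hy1⟩ := hdec J
  refine ⟨y1 + ⌈2 ^ J * (8 * (48 * k / δ + 2)) / ε⌉₊, fun y hy F F' G G' g hF hF' hG hG' hg hR hR' hav => ?_⟩
  obtain ⟨Bad, hB1, hB2, hB3⟩ := hy1 y (by omega) F hF
  obtain ⟨Bad', hB1', hB2', hB3'⟩ := hy1 y (by omega) F' hF'
  have hyK : 2 ^ J * (8 * (48 * k / δ + 2)) / ε ≤ y := (Nat.le_ceil _).trans (by
    exact_mod_cast (by omega : ⌈2 ^ J * (8 * (48 * k / δ + 2)) / ε⌉₊ ≤ y))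
  have hgood : ∀ i ∈ Icc 1 J, i' ≤ i → i ∉ Bad → i ∉ Bad' → δ / 4 * 2 ^ i ≤ WT δ g i →
      ‖SS a b G (y / 2 ^ i) - SS a b G' (y / 2 ^ i)‖ ≤ ε * ((y : ℝ) / 2 ^ i) := by
    intro i hi hii hib hib' hW
    rw [mem_Icc] at hi
    have hii0 : i ∈ Icc i0 J := by rw [mem_Icc]; omega
    have hlt : i < 2 ^ i := Nat.lt_two_pow_self
    have hia : ∀ j, a j ≤ 2 ^ i := by
      intro j
      have := single_le_sum (f := a) (fun _ _ => Nat.zero_le _) (mem_univ j)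
      omega
    have h3 := good a b hF hF' hG hG' hg hR hR' ε' ε' δ hδ0 i y hia ha (hB3 i hii0 hib) (hB3' i hii0 hib')
      (hav i (by rw [mem_Icc]; omega)) hW
    have h2i : (0 : ℝ) < 2 ^ i := by positivity
    have hyi : (0 : ℝ) ≤ (y : ℝ) / 2 ^ i := by positivity
    have hiJ : (2 : ℝ) ^ i ≤ 2 ^ J := pow_le_pow_right₀ one_le_two hi.2
    have h4i : (4 : ℝ) ^ i = 2 ^ i * 2 ^ i := by rw [← mul_pow]; norm_num
    refine h3.trans ?_
    have g1 : 4 / δ * ((2 * ε' + ε') * (y / 2 ^ i) + 12 * k * (y / 4 ^ i + 1)) =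
        ε / 4 * (y / 2 ^ i) + 48 * k / δ / 2 ^ i * (y / 2 ^ i) + 48 * k / δ := by
      rw [h4i, hε']
      field_simp
      ring
    have g2 : 48 * k / δ / 2 ^ i ≤ ε / 8 := by
      have g3 : (48 * k * 8 / (ε * δ) : ℝ) ≤ 2 ^ i := by
        have : (2 : ℝ) ^ i3 ≤ 2 ^ i := pow_le_pow_right₀ one_le_two (by omega)
        linarith
      rw [div_le_iff₀ (by positivity)] at g3
      rw [div_div, div_le_iff₀ (by positivity)]
      linarith
    have g4 : 48 * k / δ + 2 ≤ ε / 8 * (y / 2 ^ i) := by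
      rw [div_le_iff₀ hε] at hyK
      rw [mul_div_assoc', le_div_iff₀ h2i]
      have g5 : 0 ≤ 8 * (48 * k / δ + 2) := by positivity
      have g6 : 2 ^ i * (8 * (48 * k / δ + 2)) ≤ 2 ^ J * (8 * (48 * k / δ + 2)) :=
        mul_le_mul_of_nonneg_right hiJ g5
      linarith
    rw [g1]
    have g7 : 48 * k / δ / 2 ^ i * ((y : ℝ) / 2 ^ i) ≤ ε / 8 * (y / 2 ^ i) :=
      mul_le_mul_of_nonneg_right g2 hyi
    have g8 : δ * ((y : ℝ) / 2 ^ i) ≤ ε / 8 * (y / 2 ^ i) := mul_le_mul_of_nonneg_right hδε hyi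
    have g9 : 0 ≤ ε * ((y : ℝ) / 2 ^ i) := by positivity
    linarith
  have hsub : (Icc 1 J).filter (fun i => ε * ((y : ℝ) / 2 ^ i) <
      ‖SS a b G (y / 2 ^ i) - SS a b G' (y / 2 ^ i)‖ ∧ δ / 4 * 2 ^ i ≤ WT δ g i) ⊆ Icc 1 i' ∪ (Bad ∪ Bad') := by
    intro i hi
    rw [mem_filter] at hi
    rw [mem_union, mem_union]
    by_contra hcon
    push Not at hcon
    have h1 : i' ≤ i := by
      by_contra h2
      apply hcon.1
      rw [mem_Icc]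
      have := (mem_Icc.1 hi.1).1
      omega
    have := hgood i hi.1 h1 hcon.2.1 hcon.2.2 hi.2.2
    linarith [hi.2.1]
  have hnn : ∀ i : ℕ, (0 : ℝ) ≤ 1 / (i : ℝ) := fun i => by positivity
  have hun : ∀ S S' : Finset ℕ, ∑ i ∈ S ∪ S', 1 / (i : ℝ) ≤ ∑ i ∈ S, 1 / (i : ℝ) + ∑ i ∈ S', 1 / (i : ℝ) := by
    intro S S'
    have := sum_union_inter (s₁ := S) (s₂ := S') (f := fun i : ℕ => 1 / (i : ℝ))
    have h2 : 0 ≤ ∑ i ∈ S ∩ S', 1 / (i : ℝ) := sum_nonneg fun i _ => hnn i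
    linarith
  have h5 := sum_le_sum_of_subset_of_nonneg hsub (f := fun i : ℕ => 1 / (i : ℝ)) fun i _ _ => hnn i
  have h6 := hun (Icc 1 i') (Bad ∪ Bad')
  have h7 := hun Bad Bad'
  have h8 : ∑ i ∈ Icc 1 i', 1 / (i : ℝ) ≤ i' := by
    calc ∑ i ∈ Icc 1 i', 1 / (i : ℝ) ≤ ∑ i ∈ Icc 1 i', (1 : ℝ) := by
          apply sum_le_sum
          intro i hi
          rw [mem_Icc] at hi
          rw [div_le_one (by exact_mod_cast hi.1)]
          exact_mod_cast hi.1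
      _ = i' := by simp
  linarith

end Pool.Agent.N781.E
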