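import Mathlib
import Pool.Agent.N781.E.Eng
import Pool.Agent.N781.P.Fix

/-! Project E: the hypothesis of the engine from mean squares over the dilates. -/

set_option autoImplicit false

namespace Pool.Agent.N781.E

open Finset Pool.Agent.TH575.CW Pool.Agent.N781.A Pool.Agent.N781.P

lemma sum_Icc_int (y : ℕ) (f : ℤ → ℂ) : ∑ n ∈ Icc (1 : ℤ) y, f n = ∑ n ∈ Icc 1 y, f (n : ℤ) := by
  symm
  apply Finset.sum_bij (fun (n : ℕ) _ => (n : ℤ))
  · intro n hn
    rw [mem_Icc] at hn ⊢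
    omega
  · intro n _ n' _ h
    exact_mod_cast h
  · intro n hn
    rw [mem_Icc] at hn
    refine ⟨n.toNat, ?_, ?_⟩
    · rw [mem_Icc]; omega
    · omega
  · intro _ _
    rfl

lemma cc_CS {k : ℕ} (a : Fin k → ℕ) (b : Fin k → ℤ) (F : Fin k → ℤ → ℂ) (y p : ℕ) :
    cc (fun j => (a j : ℤ)) b F y (p : ℤ) = CS a b F y p / y := by
  unfold cc av CS
  rw [sum_Icc_int]

/-- from mean squares over the dilates to averages over the primes of a dyadic scale -/
theorem pr_av (k : ℕ) (a : Fin k → ℕ) (b : Fin k → ℤ) (hk : 0 < k) (ha : ∀ j, 1 ≤ a j) (ε : ℝ)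
    (hε : 0 < ε) : ∃ (ε' : ℝ) (K : ℕ), 0 < ε' ∧ ∀ i y : ℕ, K ≤ i → 2 ^ (i + 1) ≤ y →
      ∀ F F' : Fin k → ℤ → ℂ, (∀ j m, ‖F j m‖ ≤ 1) → (∀ j m, ‖F' j m‖ ≤ 1) →
        avr (2 ^ (i + 1)) (fun d => ‖cc (fun j => (a j : ℤ)) b F y d -
          cc (fun j => (a j : ℤ)) b F' y d‖ ^ 2) ≤ ε' →
        ∑ p ∈ QD i (i + 1), Real.log p / 2 ^ i * ‖CS a b F y p - CS a b F' y p‖ ≤ ε * y := by
  obtain ⟨ε', K, hε', hK⟩ := tr_fix k 1 1 (fun j => (a j : ℤ)) b (fun _ => 1) (fun _ => 0) hk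
    (fun j => by have := ha j; omega) (fun _ => by norm_num)
    (fun j j' h => absurd (Subsingleton.elim j j') h) (ε / 2) (by positivity)
  refine ⟨ε', K, hε', fun i y hi hy F F' hF hF' hms => ?_⟩
  have hlt : i < 2 ^ i := Nat.lt_two_pow_self
  have h1 := hK (2 ^ (i + 1)) y (by rw [pow_succ]; omega) (by omega) F F' hF hF' hms
  have hy0 : (0 : ℝ) < y := by
    have : 0 < 2 ^ (i + 1) := by positivity
    exact_mod_cast (by omega : 0 < y)
  have h2i : (0 : ℝ) < 2 ^ i := by positivity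
  have h2 : ∑ p ∈ QD i (i + 1), Real.log p * ‖cc (fun j => (a j : ℤ)) b F y (p : ℤ) -
      cc (fun j => (a j : ℤ)) b F' y (p : ℤ)‖ ≤ ε / 2 * ((2 ^ (i + 1) : ℕ) : ℝ) := by
    refine le_trans ?_ h1
    have h3 : ∑ p ∈ QD i (i + 1), Real.log p * ‖cc (fun j => (a j : ℤ)) b F y (p : ℤ) -
        cc (fun j => (a j : ℤ)) b F' y (p : ℤ)‖ = ∑ d ∈ (QD i (i + 1)).image (fun p : ℕ => (p : ℤ)),
        ((∏ _j : Fin 1, ArithmeticFunction.vonMangoldt (1 * d + 0).natAbs) *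
          ‖cc (fun j => (a j : ℤ)) b F y d - cc (fun j => (a j : ℤ)) b F' y d‖) := by
      rw [sum_image (fun p _ q _ h => by exact_mod_cast h)]
      apply sum_congr rfl
      intro p hp
      have hpp := QD_prime hp
      rw [Fin.prod_univ_one]
      congr 1
      rw [one_mul, add_zero, Int.natAbs_natCast, ArithmeticFunction.vonMangoldt_apply_prime hpp]
    rw [h3]
    apply sum_le_sum_of_subset_of_nonneg
    · intro d hd
      rw [mem_image] at hd
      obtain ⟨p, hp, rfl⟩ := hd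
      unfold QD at hp
      rw [mem_filter, mem_Ioc] at hp
      rw [mem_Icc]
      constructor
      · have := hp.2.pos
        omega
      · exact_mod_cast hp.1.2
    · intro d _ _
      apply mul_nonneg _ (norm_nonneg _)
      exact prod_nonneg fun _ _ => ArithmeticFunction.vonMangoldt_nonneg
  have h4 : ∑ p ∈ QD i (i + 1), Real.log p / 2 ^ i * ‖CS a b F y p - CS a b F' y p‖ =
      y / 2 ^ i * ∑ p ∈ QD i (i + 1), Real.log p * ‖cc (fun j => (a j : ℤ)) b F y (p : ℤ) -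
      cc (fun j => (a j : ℤ)) b F' y (p : ℤ)‖ := by
    rw [mul_sum]
    apply sum_congr rfl
    intro p _
    rw [cc_CS, cc_CS, ← sub_div, norm_div, Complex.norm_natCast]
    field_simp
  rw [h4]
  calc y / 2 ^ i * ∑ p ∈ QD i (i + 1), Real.log p * ‖cc (fun j => (a j : ℤ)) b F y (p : ℤ) -
      cc (fun j => (a j : ℤ)) b F' y (p : ℤ)‖
      ≤ y / 2 ^ i * (ε / 2 * ((2 ^ (i + 1) : ℕ) : ℝ)) := mul_le_mul_of_nonneg_left h2 (by positivity)
    _ = ε * y := by
        push_cast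
        rw [pow_succ]
        field_simp

end Pool.Agent.N781.E
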