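import Mathlib
import Pool.Agent.N781.E.Pr
import Pool.Agent.N781.E.Light
import Pool.Agent.N781.A.Four

/-! Project E: Elliott's conjecture at fixed shifts, at all but few dyadic scales, if the product of
the functions does not pretend to be a twisted character. -/

set_option autoImplicit false

namespace Pool.Agent.N781.E

open Finset Pool.Agent.TH575.CW Pool.Agent.N781.A Pool.Agent.N781.FV

lemma toZ_norm {k : ℕ} {f : Fin k → ℕ → ℂ} (hf : ∀ i, IsMult (f i)) (j : Fin k) (m : ℤ) :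
    ‖toZ f j m‖ ≤ 1 := (hf j).1 _

lemma rel_toZ {k : ℕ} {f : Fin k → ℕ → ℂ} (hf : ∀ i, IsMult (f i)) :
    Rel (toZ f) (toZ f) (fun p => ∏ i, f i p) := by
  intro p hp m hpm
  rw [← prod_mul_distrib]
  apply prod_congr rfl
  intro i _
  have h1 : ¬ p ∣ (m i).natAbs := fun h2 => hpm i (Int.natCast_dvd.mpr h2)
  unfold toZ
  rw [Int.natAbs_mul, Int.natAbs_natCast, (hf i).2 _ _ ((Nat.Prime.coprime_iff_not_dvd hp).mpr h1)]

/-- the exceptional scales -/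
noncomputable def bad {k : ℕ} (a : Fin k → ℕ) (b : Fin k → ℤ) (f : Fin k → ℕ → ℂ) (ε : ℝ) (J N : ℕ) :
    Finset ℕ :=
  (Icc 1 J).filter (fun i => ε * ((N : ℝ) / 2 ^ i) < ‖SS a b (toZ f) (N / 2 ^ i)‖)

theorem core (k : ℕ) (hk : 0 < k) (a : Fin k → ℕ) (b : Fin k → ℤ) (ha : ∀ j, 1 ≤ a j) (ε : ℝ)
    (hε : 0 < ε) : ∃ ε2 : ℝ, 0 < ε2 ∧ ∀ K2 : ℕ, ∃ C : ℝ, ∀ J : ℕ, ∃ N₀ : ℕ, ∀ N : ℕ, N₀ ≤ N →
      ∀ f : Fin k → ℕ → ℂ, (∀ i, IsMult (f i)) →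
        (∀ D : ℕ, K2 ≤ D → D ≤ N → ∑ d ∈ Icc (1 : ℤ) D, ‖cs (fun j => (a j : ℤ)) b f N d‖ ≤ ε2 * (D * N)) →
        ∑ i ∈ bad a b f ε J N, 1 / (i : ℝ) ≤ C := by
  classical
  obtain ⟨ε1, C0, δ, i1, hε1, hC0, hδ, hδ1, hi1, heng⟩ := eng k a b ha ε hε
  obtain ⟨ε2, K1, hε2, hpr⟩ := pr_av k a b hk ha ε1 hε1
  obtain ⟨C3, i3, hC3, hlight⟩ := lightK k hk a b ha δ hδ hδ1 ε hε
  refine ⟨ε2, hε2, fun K2 => ?_⟩
  set i' := i1 + K1 + K2 with hi'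
  refine ⟨C0 + i' + i3 + C3, fun J => ?_⟩
  obtain ⟨y0, hy0⟩ := heng i' (by omega) J
  obtain ⟨y3, hy3⟩ := hlight J
  refine ⟨y0 + y3 + 2 ^ (J + 1), fun N hN f hf hD => ?_⟩
  have hJ0 : 0 < 2 ^ (J + 1) := by positivity
  have hN0 : y0 ≤ N := by omega
  have hN3 : y3 ≤ N := by omega
  have hNJ : 2 ^ (J + 1) ≤ N := le_trans (Nat.le_add_left _ _) hN
  have hNpos : 0 < N := by omega
  have hNr : (0 : ℝ) < N := by exact_mod_cast hNpos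
  have hg : ∀ p, ‖∏ i, f i p‖ ≤ 1 := by
    intro p
    rw [norm_prod]
    exact prod_le_one (fun _ _ => norm_nonneg _) (fun j _ => (hf j).1 _)
  have hz : ∀ (j : Fin k) (m : ℤ), ‖(fun (_ : Fin k) (_ : ℤ) => (0 : ℂ)) j m‖ ≤ 1 := by
    intro j m; simp
  have hz0 : ∀ m : Fin k → ℤ, ∏ j, (fun (_ : Fin k) (_ : ℤ) => (0 : ℂ)) j (m j) = 0 := by
    intro m
    exact prod_eq_zero (mem_univ ⟨0, hk⟩) rfl
  have hrz : Rel (fun (_ : Fin k) (_ : ℤ) => (0 : ℂ)) (fun _ _ => 0) (fun p => ∏ i, f i p) := by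
    intro p _ m _
    rw [hz0 (fun j => (p : ℤ) * m j), mul_zero]
  have hccz : ∀ d, cc (fun j => (a j : ℤ)) b (fun (_ : Fin k) (_ : ℤ) => (0 : ℂ)) N d = 0 := by
    intro d
    unfold cc av
    rw [Finset.sum_eq_zero, zero_div]
    intro n _
    exact hz0 (fun j => (a j : ℤ) * n + b j * d)
  have hSz : ∀ Y, SS a b (fun (_ : Fin k) (_ : ℤ) => (0 : ℂ)) Y = 0 := by
    intro Y
    unfold SS
    exact Finset.sum_eq_zero fun n _ => hz0 (fun j => (a j : ℤ) * n + b j)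
  have hmain := hy0 N hN0 (toZ f) (fun _ _ => 0) (toZ f) (fun _ _ => 0)
    (fun p => ∏ i, f i p) (toZ_norm hf) hz (toZ_norm hf) hz hg (rel_toZ hf) hrz (by
      intro i hi
      rw [mem_Icc] at hi
      have hlt : i < 2 ^ i := Nat.lt_two_pow_self
      have h2J : 2 ^ (i + 1) ≤ 2 ^ (J + 1) := Nat.pow_le_pow_right (by norm_num) (by omega)
      refine hpr i N (by omega) (h2J.trans hNJ) (toZ f) (fun _ _ => 0) (toZ_norm hf) hz ?_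
      have hDpos : 0 < 2 ^ (i + 1) := by positivity
      have hDr : (0 : ℝ) < ((2 ^ (i + 1) : ℕ) : ℝ) := by exact_mod_cast hDpos
      have h3 := hD (2 ^ (i + 1)) (by rw [pow_succ]; omega) (h2J.trans hNJ)
      unfold avr
      rw [div_le_iff₀ hDr]
      have h4 : ∀ d ∈ Icc (1 : ℤ) ((2 ^ (i + 1) : ℕ) : ℤ), ‖cc (fun j => (a j : ℤ)) b (toZ f) N d -
          cc (fun j => (a j : ℤ)) b (fun (_ : Fin k) (_ : ℤ) => (0 : ℂ)) N d‖ ^ 2 ≤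
          ‖cs (fun j => (a j : ℤ)) b f N d‖ / N := by
        intro d _
        rw [hccz, sub_zero]
        have h5 := cc_norm (fun j => (a j : ℤ)) b (toZ f) (toZ_norm hf) N d
        have h6 : ‖cs (fun j => (a j : ℤ)) b f N d‖ / N = ‖cc (fun j => (a j : ℤ)) b (toZ f) N d‖ := by
          rw [cs_eq _ b f N hNpos, norm_mul, Complex.norm_natCast, mul_div_assoc, div_self hNr.ne', mul_one]
          rfl
        rw [h6]
        have h7 := norm_nonneg (cc (fun j => (a j : ℤ)) b (toZ f) N d)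
        nlinarith
      refine (sum_le_sum h4).trans ?_
      rw [← sum_div, div_le_iff₀ hNr]
      refine h3.trans (le_of_eq ?_)
      ring)
  simp only [hSz, sub_zero] at hmain
  by_contra hcon
  push Not at hcon
  set L := (Icc i3 J).filter (fun i => WT δ (fun p => ∏ j, f j p) i < δ / 4 * 2 ^ i) with hL
  have hnn : ∀ i : ℕ, (0 : ℝ) ≤ 1 / (i : ℝ) := fun i => by positivity
  have hun : ∀ S S' : Finset ℕ, ∑ i ∈ S ∪ S', 1 / (i : ℝ) ≤ ∑ i ∈ S, 1 / (i : ℝ) + ∑ i ∈ S', 1 / (i : ℝ) := by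
    intro S S'
    have := sum_union_inter (s₁ := S) (s₂ := S') (f := fun i : ℕ => 1 / (i : ℝ))
    have h2 : 0 ≤ ∑ i ∈ S ∩ S', 1 / (i : ℝ) := sum_nonneg fun i _ => hnn i
    linarith
  have hsub : bad a b f ε J N ⊆ ((Icc 1 J).filter (fun i => ε * ((N : ℝ) / 2 ^ i) <
      ‖SS a b (toZ f) (N / 2 ^ i)‖ ∧ δ / 4 * 2 ^ i ≤ WT δ (fun p => ∏ j, f j p) i)) ∪ (Icc 1 i3 ∪ L) := by
    intro i hi
    unfold bad at hi
    rw [mem_filter, mem_Icc] at hi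
    rw [mem_union, mem_union, mem_filter, mem_Icc, mem_Icc, hL, mem_filter, mem_Icc]
    by_cases h1 : i ≤ i3
    · exact Or.inr (Or.inl ⟨hi.1.1, h1⟩)
    · by_cases h2 : δ / 4 * 2 ^ i ≤ WT δ (fun p => ∏ j, f j p) i
      · exact Or.inl ⟨hi.1, hi.2, h2⟩
      · exact Or.inr (Or.inr ⟨⟨by omega, hi.1.2⟩, not_le.1 h2⟩)
  have h5 := sum_le_sum_of_subset_of_nonneg hsub (f := fun i : ℕ => 1 / (i : ℝ)) fun i _ _ => hnn i
  have h6 := hun ((Icc 1 J).filter (fun i => ε * ((N : ℝ) / 2 ^ i) <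
      ‖SS a b (toZ f) (N / 2 ^ i)‖ ∧ δ / 4 * 2 ^ i ≤ WT δ (fun p => ∏ j, f j p) i)) (Icc 1 i3 ∪ L)
  have h7 := hun (Icc 1 i3) L
  have h8 : ∑ i ∈ Icc 1 i3, 1 / (i : ℝ) ≤ i3 := by
    calc ∑ i ∈ Icc 1 i3, 1 / (i : ℝ) ≤ ∑ i ∈ Icc 1 i3, (1 : ℝ) := by
          apply sum_le_sum
          intro i hi
          rw [mem_Icc] at hi
          rw [div_le_one (by exact_mod_cast hi.1)]
          exact_mod_cast hi.1
      _ = i3 := by simp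
  have h9 : C3 < ∑ i ∈ L, 1 / (i : ℝ) := by linarith
  have h10 := hy3 N hN3 f (fun j => ⟨(hf j).1, (hf j).2⟩) h9
  have h11 : bad a b f ε J N = ∅ := by
    rw [Finset.eq_empty_iff_forall_notMem]
    intro i hi
    unfold bad at hi
    rw [mem_filter] at hi
    have := h10 i hi.1
    linarith [hi.2]
  rw [h11, sum_empty] at hcon
  have h12 : (0 : ℝ) ≤ i' := Nat.cast_nonneg _
  have h13 : (0 : ℝ) ≤ i3 := Nat.cast_nonneg _
  linarith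

/-- The uniform inverse theorem at fixed shifts. -/
theorem fixed_inverse (k : ℕ) (hk : 0 < k) (a : Fin k → ℕ) (b : Fin k → ℤ) (ha : ∀ j, 1 ≤ a j)
    (S : Set ℂ) (hS : S.Finite) (ε : ℝ) (hε : 0 < ε) :
    ∃ Q : ℕ, ∀ η : ℝ, 0 < η → ∃ U M : ℝ, ∀ T : ℕ, ∃ C : ℝ, ∀ J : ℕ, ∃ N₀ : ℕ, ∀ N : ℕ, N₀ ≤ N →
      ∀ f : Fin k → ℕ → ℂ, (∀ i, IsMult (f i)) → C < ∑ i ∈ bad a b f ε J N, 1 / (i : ℝ) →
      ∃ (q : ℕ) (χ : DirichletCharacter ℂ q) (v : ℝ), 1 ≤ q ∧ q ≤ Q ∧ |v| ≤ U ∧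
        mass (fun p => ∏ i, f i p) χ v η T ≤ M ∧
        ((∀ p : ℕ, p.Prime → ∏ i, f i p ∈ S) → v = 0 ∧ dist2 (fun p => ∏ i, f i p) χ T ≤ M) := by
  obtain ⟨ε2, hε2, hcore⟩ := core k hk a b ha ε hε
  obtain ⟨Q, hQ⟩ := dil_inverse 1 hk (fun j => (a j : ℤ)) b (fun j => by have := ha j; omega) S hS ε2 hε2
  refine ⟨Q, fun η hη => ?_⟩
  obtain ⟨U, M, hUM⟩ := hQ η hη
  refine ⟨U, M, fun T => ?_⟩
  obtain ⟨K2, hK2⟩ := hUM T
  obtain ⟨C, hC⟩ := hcore K2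
  refine ⟨C, fun J => ?_⟩
  obtain ⟨N₀, hN₀⟩ := hC J
  refine ⟨N₀, fun N hN f hf hbig => ?_⟩
  by_contra hcon
  have h1 := hN₀ N hN f hf (fun D hD hDN => by
    by_contra h2
    push Not at h2
    exact hcon (hK2 D N hD (by omega) f hf h2))
  linarith

/-- The qualitative theorem for fixed functions at fixed shifts. -/
theorem fixed_qual (k : ℕ) (hk : 0 < k) (a : Fin k → ℕ) (b : Fin k → ℤ) (ha : ∀ j, 1 ≤ a j)
    (f : Fin k → ℕ → ℂ) (hf : ∀ i, IsMult (f i))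
    (h : (∀ (q : ℕ) (χ : DirichletCharacter ℂ q) (v : ℝ), 1 ≤ q → ∃ η : ℝ, 0 < η ∧
        ∀ M : ℝ, ∃ T : ℕ, M < mass (fun p => ∏ i, f i p) χ v η T) ∨
      ((Set.range fun p : Nat.Primes => ∏ i, f i p).Finite ∧
        ∀ (q : ℕ) (χ : DirichletCharacter ℂ q), 1 ≤ q →
          ∀ M : ℝ, ∃ T : ℕ, M < dist2 (fun p => ∏ i, f i p) χ T))
    (ε : ℝ) (hε : 0 < ε) :
    ∃ C : ℝ, ∀ J : ℕ, ∃ N₀ : ℕ, ∀ N : ℕ, N₀ ≤ N → ∑ i ∈ bad a b f ε J N, 1 / (i : ℝ) ≤ C := by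
  obtain ⟨ε2, hε2, hcore⟩ := core k hk a b ha ε hε
  obtain ⟨K2, hK2⟩ := dil_qual 1 hk (fun j => (a j : ℤ)) b (fun j => by have := ha j; omega) f hf h ε2 hε2
  obtain ⟨C, hC⟩ := hcore K2
  refine ⟨C, fun J => ?_⟩
  obtain ⟨N₀, hN₀⟩ := hC J
  exact ⟨N₀, fun N hN => hN₀ N hN f hf (fun D hD hDN => hK2 D N hD (by omega))⟩

end Pool.Agent.N781.E
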