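import Mathlib
import Pool.Agent.N781.E.Pr
import Pool.Agent.N781.OM.Fin

/-! Project E: the diagonal shift at fixed shifts, at all but few dyadic scales. -/

set_option autoImplicit false

namespace Pool.Agent.N781.E

open Finset Pool.Agent.TH575.CW Pool.Agent.N781.A Pool.Agent.N781.OM

lemma rel_FO {k : ℕ} (f : Fin k → ℕ → ℂ) (h : Fin k → ℕ → ℕ) (φ : Fin k → ℕ → ℂ)
    (hm : ∀ i (m n : ℕ), m.Coprime n → f i (m * n) = f i m * f i n)
    (hh : ∀ i (p m : ℕ), p.Prime → ¬ p ∣ m → h i (p * m) = h i m + 1) (j : ℕ) :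
    Rel (FO f h φ j) (FO f h φ (j + 1)) (fun p => ∏ i, f i p) := by
  intro p hp m hpm
  rw [← prod_mul_distrib]
  apply prod_congr rfl
  intro i _
  have h1 : ¬ p ∣ (m i).natAbs := fun h2 => hpm i (Int.natCast_dvd.mpr h2)
  unfold FO
  rw [Int.natAbs_mul, Int.natAbs_natCast, hm i _ _ ((Nat.Prime.coprime_iff_not_dvd hp).mpr h1),
    hh i p _ hp h1, mul_assoc]
  congr 3
  ring

theorem om_fixed (k : ℕ) (a : Fin k → ℕ) (b : Fin k → ℤ) (hk : 0 < k) (ha : ∀ j, 1 ≤ a j) (ε : ℝ)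
    (hε : 0 < ε) : ∃ C : ℝ, ∀ J : ℕ, ∃ N₀ : ℕ, ∀ N : ℕ, N₀ ≤ N →
      ∀ (f : Fin k → ℕ → ℂ) (h : Fin k → ℕ → ℕ) (φ : Fin k → ℕ → ℂ),
        (∀ i n, ‖f i n‖ ≤ 1) → (∀ i (m n : ℕ), m.Coprime n → f i (m * n) = f i m * f i n) →
        (∀ p : ℕ, p.Prime → ∏ i, f i p = 1) →
        (∀ i (p m : ℕ), p.Prime → ¬ p ∣ m → h i (p * m) = h i m + 1) →
        (∀ i l, ‖φ i l‖ ≤ 1) →
        ∑ i ∈ (Icc 1 J).filter (fun i => ε * ((N : ℝ) / 2 ^ i) <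
          ‖SS a b (FO f h φ 0) (N / 2 ^ i) - SS a b (FO f h φ 1) (N / 2 ^ i)‖), 1 / (i : ℝ) ≤ C := by
  classical
  obtain ⟨ε1, C, δ, i1, hε1, hC, hδ, hδ1, hi1, heng⟩ := eng k a b ha ε hε
  obtain ⟨ε2, K1, hε2, hpr⟩ := pr_av k a b hk ha ε1 hε1
  obtain ⟨K2, hms⟩ := shift_ms 1 k (fun j => (a j : ℤ)) b hk (fun j => by have := ha j; omega) ε2 hε2
  obtain ⟨i2, hi2⟩ := pnt_low δ hδ hδ1
  set i' := i1 + K1 + K2 + i2 with hi'
  refine ⟨C + i' + i', fun J => ?_⟩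
  obtain ⟨y0, hy0⟩ := heng i' (by omega) J
  refine ⟨y0 + 2 ^ (J + 1), fun N hN f h φ hf hm hone hh hφ => ?_⟩
  have hJ0 : 0 < 2 ^ (J + 1) := by positivity
  have hN0 : y0 ≤ N := le_trans (Nat.le_add_right _ _) hN
  have hNJ : 2 ^ (J + 1) ≤ N := le_trans (Nat.le_add_left _ _) hN
  set φ' : Fin k → ℕ → ℂ := fun i l => if l = 0 then 0 else φ i (l - 1) with hφ'
  have hφ'1 : ∀ i l, ‖φ' i l‖ ≤ 1 := by
    intro i l
    simp only [hφ']
    split_ifs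
    · simp
    · exact hφ _ _
  have e0 : FO f h φ 0 = FO f h φ' 1 := by
    funext i m
    unfold FO
    simp [hφ']
  have e1 : FO f h φ 1 = FO f h φ' 2 := by
    funext i m
    unfold FO
    simp [hφ']
  have hg : ∀ p, ‖∏ i, f i p‖ ≤ 1 := by
    intro p
    rw [norm_prod]
    exact prod_le_one (fun _ _ => norm_nonneg _) (fun j _ => hf j _)
  have hmain := hy0 N hN0 (FO f h φ' 0) (FO f h φ' 1) (FO f h φ' 1) (FO f h φ' 2)
    (fun p => ∏ i, f i p) (FO_norm f h φ' hf hφ'1 0) (FO_norm f h φ' hf hφ'1 1)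
    (FO_norm f h φ' hf hφ'1 1) (FO_norm f h φ' hf hφ'1 2) hg (rel_FO f h φ' hm hh 0)
    (rel_FO f h φ' hm hh 1) (by
      intro i hi
      rw [mem_Icc] at hi
      have hlt : i < 2 ^ i := Nat.lt_two_pow_self
      have h2J : 2 ^ (i + 1) ≤ 2 ^ (J + 1) := Nat.pow_le_pow_right (by norm_num) (by omega)
      refine hpr i N (by omega) (h2J.trans hNJ) (FO f h φ' 0) (FO f h φ' 1)
        (FO_norm f h φ' hf hφ'1 0) (FO_norm f h φ' hf hφ'1 1) ?_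
      have h3 := hms (2 ^ (i + 1)) N (by rw [pow_succ]; omega) (by rw [one_mul]; exact h2J.trans hNJ) (FO f h φ' 0) (FO f h φ' 1)
        (FO f h φ' 2) f f (fun T => FO_MG f h φ' hf hm hh hφ'1 0 T)
        (fun T => FO_MG f h φ' hf hm hh hφ'1 1 T) hone hone
      simp only [norm_sub_rev] at h3 ⊢
      exact h3)
  rw [e0, e1]
  have hsub : (Icc 1 J).filter (fun i => ε * ((N : ℝ) / 2 ^ i) <
      ‖SS a b (FO f h φ' 1) (N / 2 ^ i) - SS a b (FO f h φ' 2) (N / 2 ^ i)‖) ⊆ Icc 1 i' ∪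
      (Icc 1 J).filter (fun i => ε * ((N : ℝ) / 2 ^ i) <
      ‖SS a b (FO f h φ' 1) (N / 2 ^ i) - SS a b (FO f h φ' 2) (N / 2 ^ i)‖ ∧
        δ / 4 * 2 ^ i ≤ WT δ (fun p => ∏ i, f i p) i) := by
    intro i hi
    rw [mem_filter, mem_Icc] at hi
    rw [mem_union, mem_filter, mem_Icc, mem_Icc]
    by_cases h1 : i ≤ i'
    · exact Or.inl ⟨hi.1.1, h1⟩
    · refine Or.inr ⟨hi.1, hi.2, ?_⟩
      have h2 := hi2 i (by omega)
      have h3 : WT δ (fun p => ∏ i, f i p) i = ∑ p ∈ PL δ i, Real.log p := by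
        unfold WT
        apply sum_congr rfl
        intro p hp
        simp only [hone p (PL_lt' hp).2.2.1, norm_one, mul_one]
      rw [h3]
      refine le_trans ?_ h2
      have : (0 : ℝ) < δ * 2 ^ i := by positivity
      linarith
  have hnn : ∀ i : ℕ, (0 : ℝ) ≤ 1 / (i : ℝ) := fun i => by positivity
  refine (sum_le_sum_of_subset_of_nonneg hsub fun i _ _ => hnn i).trans ?_
  have h5 := sum_union_inter (s₁ := Icc 1 i') (s₂ := (Icc 1 J).filter (fun i => ε * ((N : ℝ) / 2 ^ i) <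
      ‖SS a b (FO f h φ' 1) (N / 2 ^ i) - SS a b (FO f h φ' 2) (N / 2 ^ i)‖ ∧
        δ / 4 * 2 ^ i ≤ WT δ (fun p => ∏ i, f i p) i)) (f := fun i : ℕ => 1 / (i : ℝ))
  have h6 : 0 ≤ ∑ i ∈ Icc 1 i' ∩ (Icc 1 J).filter (fun i => ε * ((N : ℝ) / 2 ^ i) <
      ‖SS a b (FO f h φ' 1) (N / 2 ^ i) - SS a b (FO f h φ' 2) (N / 2 ^ i)‖ ∧
        δ / 4 * 2 ^ i ≤ WT δ (fun p => ∏ i, f i p) i), 1 / (i : ℝ) := sum_nonneg fun i _ => hnn i
  have h8 : ∑ i ∈ Icc 1 i', 1 / (i : ℝ) ≤ i' := by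
    calc ∑ i ∈ Icc 1 i', 1 / (i : ℝ) ≤ ∑ i ∈ Icc 1 i', (1 : ℝ) := by
          apply sum_le_sum
          intro i hi
          rw [mem_Icc] at hi
          rw [div_le_one (by exact_mod_cast hi.1)]
          exact_mod_cast hi.1
      _ = i' := by simp
  linarith

end Pool.Agent.N781.E
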