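import Mathlib

/-! Project E: from the dyadic scales `N / 2 ^ i` to whole dyadic intervals. -/

set_option autoImplicit false

namespace Pool.Agent.N781.E

open Finset

open Classical in
/-- the exceptional dyadic intervals -/
noncomputable def exc (X : ℕ → ℝ) (ε : ℝ) (J N : ℕ) : Finset ℕ :=
  (Icc 1 J).filter (fun i => ∃ y : ℕ, N / 2 ^ (i + 1) ≤ y ∧ y ≤ N / 2 ^ i ∧ ε * y < X y)

lemma sum_biUnion_le' (S : Finset ℕ) (B : ℕ → Finset ℕ) (g : ℕ → ℝ) (hg : ∀ i, 0 ≤ g i) :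
    ∑ i ∈ S.biUnion B, g i ≤ ∑ t ∈ S, ∑ i ∈ B t, g i := by
  classical
  induction S using Finset.induction_on with
  | empty => simp
  | insert a S ha ih =>
    rw [biUnion_insert, sum_insert ha]
    have h1 := sum_union_inter (s₁ := B a) (s₂ := S.biUnion B) (f := g)
    have h2 : 0 ≤ ∑ i ∈ B a ∩ S.biUnion B, g i := sum_nonneg fun i _ => hg i
    linarith

open Classical in
theorem sup_few (c ε : ℝ) (hc : 0 < c) (hε : 0 < ε) : ∃ T : ℕ, ∀ J N₀ : ℕ, ∃ N₁ : ℕ,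
    ∀ X : ℕ → ℝ, (∀ u v : ℕ, u ≤ v → |X v - X u| ≤ c * ((v : ℝ) - u)) → ∀ C : ℝ, 0 ≤ C →
      (∀ N, N₀ ≤ N → ∑ i ∈ (Icc 1 J).filter (fun i => ε / 8 * ((N : ℝ) / 2 ^ i) < X (N / 2 ^ i)),
        1 / (i : ℝ) ≤ C) →
      ∀ N, N₁ ≤ N → ∑ i ∈ exc X ε J N, 1 / (i : ℝ) ≤ T * C := by
  set T : ℕ := ⌈8 * c / ε⌉₊ + 1 with hT
  have hT1 : 8 * c / ε ≤ T := (Nat.le_ceil _).trans (by rw [hT]; push_cast; linarith)
  have hT0 : (0 : ℝ) < T := by rw [hT]; positivity
  refine ⟨T + 3, fun J N₀ => ?_⟩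
  refine ⟨2 ^ J * (8 * T + 8 + ⌈64 * c / ε⌉₊) + 4 * N₀ + 4 * 2 ^ J, fun X hX C hC h N hN => ?_⟩
  set s : ℕ := N / (2 * T) + 1 with hs
  have hTpos : 0 < T := by omega
  have hJ0 : 0 < 2 ^ J := by positivity
  have h2J : (1 : ℝ) ≤ 2 ^ J := one_le_pow₀ (by norm_num)
  have hsub : exc X ε J N ⊆ (range (T + 3)).biUnion (fun t =>
      (Icc 1 J).filter (fun i => ε / 8 * (((N - t * s : ℕ) : ℝ) / 2 ^ i) < X ((N - t * s) / 2 ^ i)) |>.filter
        (fun _ => N₀ ≤ N - t * s)) := by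
    intro i hi
    unfold exc at hi
    rw [mem_filter, mem_Icc] at hi
    obtain ⟨⟨hi1, hiJ⟩, y, hy1, hy2, hy3⟩ := hi
    have h2i0 : 0 < 2 ^ i := by positivity
    have hpow : 2 ^ i ≤ 2 ^ J := Nat.pow_le_pow_right (by norm_num) hiJ
    set z := y * 2 ^ i with hz
    have hzN : z ≤ N := (Nat.mul_le_mul_right _ hy2).trans (Nat.div_mul_le_self _ _)
    have hz2 : N ≤ 2 * z + 2 * 2 ^ i := by
      have h1 : N < (N / 2 ^ (i + 1) + 1) * 2 ^ (i + 1) := by
        have := Nat.lt_div_mul_add (a := N) (b := 2 ^ (i + 1)) (by positivity)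
        rw [add_mul, one_mul]
        exact this
      have h2 : (N / 2 ^ (i + 1) + 1) * 2 ^ (i + 1) ≤ (y + 1) * 2 ^ (i + 1) :=
        Nat.mul_le_mul_right _ (by omega)
      have h3 : (y + 1) * 2 ^ (i + 1) = 2 * z + 2 * 2 ^ i := by
        rw [hz, pow_succ]
        ring
      omega
    have hspos : 0 < s := Nat.succ_pos _
    set t := (N - z) / s with ht
    have hts : t * s ≤ N - z := Nat.div_mul_le_self _ _
    have hts2 : N - z < t * s + s := Nat.lt_div_mul_add hspos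
    have hNt : z ≤ N - t * s := by omega
    have hNt2 : N - t * s < z + s := by omega
    have ht3 : t < T + 3 := by
      rw [ht, Nat.div_lt_iff_lt_mul hspos]
      have h4 : N < 2 * T * s := by
        rw [hs, mul_add, mul_one]
        have := Nat.lt_mul_div_succ N (show 0 < 2 * T by omega)
        rw [Nat.mul_add, mul_one] at this
        exact this
      have h5 : 2 ^ i ≤ s := by
        have h6 : 2 ^ J * (2 * T) ≤ N := by
          have : 2 ^ J * (2 * T) ≤ 2 ^ J * (8 * T + 8 + ⌈64 * c / ε⌉₊) := Nat.mul_le_mul_left _ (by omega)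
          omega
        have h7 : 2 ^ J ≤ N / (2 * T) := (Nat.le_div_iff_mul_le (by omega)).2 h6
        omega
      have h8 : (T + 3) * s = T * s + 3 * s := by ring
      have h9 : 2 * T * s = 2 * (T * s) := by ring
      omega
    have hNr : (0 : ℝ) < 2 ^ i := by positivity
    have hN0 : N₀ ≤ N - t * s := by omega
    rw [mem_biUnion]
    refine ⟨t, mem_range.2 ht3, ?_⟩
    rw [mem_filter, mem_filter, mem_Icc]
    refine ⟨⟨⟨hi1, hiJ⟩, ?_⟩, hN0⟩
    set M := N - t * s with hM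
    have hyM : y ≤ M / 2 ^ i := (Nat.le_div_iff_mul_le h2i0).2 hNt
    have hMy : ((M / 2 ^ i : ℕ) : ℝ) - y ≤ s / 2 ^ i := by
      have h1 : ((M / 2 ^ i : ℕ) : ℝ) ≤ M / 2 ^ i := by
        calc ((M / 2 ^ i : ℕ) : ℝ) ≤ (M : ℝ) / ((2 ^ i : ℕ) : ℝ) := Nat.cast_div_le
          _ = _ := by push_cast; rfl
      have h2 : (M : ℝ) ≤ z + s := by exact_mod_cast hNt2.le
      have h3 : (z : ℝ) = y * 2 ^ i := by rw [hz]; push_cast; ring
      have h4 : (M : ℝ) / 2 ^ i ≤ y + s / 2 ^ i := by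
        rw [div_le_iff₀ hNr, add_mul, div_mul_cancel₀ _ hNr.ne']
        linarith
      linarith
    have hXM := hX y (M / 2 ^ i) hyM
    have hX1 : X y - c * (s / 2 ^ i) ≤ X (M / 2 ^ i) := by
      have h1 := (abs_le.1 hXM).1
      have h2 : c * (((M / 2 ^ i : ℕ) : ℝ) - y) ≤ c * (s / 2 ^ i) := mul_le_mul_of_nonneg_left hMy hc.le
      linarith
    have hsr : (s : ℝ) ≤ N / (2 * T) + 1 := by
      rw [hs]
      push_cast
      have : ((N / (2 * T) : ℕ) : ℝ) ≤ (N : ℝ) / ((2 * T : ℕ) : ℝ) := Nat.cast_div_le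
      push_cast at this
      linarith
    have hNbig : (64 * c / ε + 8) * 2 ^ i ≤ N := by
      have h1 : 64 * c / ε ≤ ⌈64 * c / ε⌉₊ := Nat.le_ceil _
      have h2 : ((2 ^ J * (8 * T + 8 + ⌈64 * c / ε⌉₊) : ℕ) : ℝ) ≤ N := by
        exact_mod_cast (by omega : 2 ^ J * (8 * T + 8 + ⌈64 * c / ε⌉₊) ≤ N)
      push_cast at h2
      have h3 : (64 * c / ε + 8) ≤ (8 * T + 8 + ⌈64 * c / ε⌉₊ : ℝ) := by linarith
      have h4 : (2 : ℝ) ^ i ≤ 2 ^ J := pow_le_pow_right₀ one_le_two hiJ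
      calc (64 * c / ε + 8) * 2 ^ i ≤ (8 * T + 8 + ⌈64 * c / ε⌉₊ : ℝ) * 2 ^ J :=
            mul_le_mul h3 h4 hNr.le (by positivity)
        _ = 2 ^ J * (8 * T + 8 + ⌈64 * c / ε⌉₊ : ℝ) := mul_comm _ _
        _ ≤ N := h2
    have hNe : (64 * c) * 2 ^ i ≤ ε * N := by
      have h1 : (64 * c / ε) * 2 ^ i ≤ N := by nlinarith
      have h2 := mul_le_mul_of_nonneg_left h1 hε.le
      calc (64 * c) * 2 ^ i = ε * ((64 * c / ε) * 2 ^ i) := by field_simp
        _ ≤ _ := h2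
    have hcT : c * (N / (2 * T)) ≤ ε / 16 * N := by
      have h1 : c / T ≤ ε / 8 := by
        rw [div_le_iff₀ hε] at hT1
        rw [div_le_iff₀ hT0]
        linarith
      calc c * ((N : ℝ) / (2 * T)) = (c / T) * (N / 2) := by field_simp
        _ ≤ (ε / 8) * (N / 2) := mul_le_mul_of_nonneg_right h1 (by positivity)
        _ = _ := by ring
    have hyr : (N : ℝ) ≤ 2 * (y * 2 ^ i) + 2 * 2 ^ i := by
      have : (N : ℝ) ≤ 2 * z + 2 * ((2 ^ i : ℕ) : ℝ) := by exact_mod_cast hz2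
      rw [hz] at this
      push_cast at this
      exact this
    have hMN : (M : ℝ) ≤ N := by exact_mod_cast Nat.sub_le N (t * s)
    have g1 : ε / 8 * ((M : ℝ) / 2 ^ i) ≤ ε / 8 * (N / 2 ^ i) := by
      apply mul_le_mul_of_nonneg_left _ (by positivity)
      exact div_le_div_of_nonneg_right hMN hNr.le
    refine lt_of_le_of_lt g1 (lt_of_lt_of_le ?_ hX1)
    refine lt_of_le_of_lt ?_ (sub_lt_sub_right hy3 _)
    -- `ε/8 N/2^i ≤ ε y - c s/2^i`
    have g2 : c * (s : ℝ) ≤ ε / 16 * N + c := by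
      calc c * (s : ℝ) ≤ c * (N / (2 * T) + 1) := mul_le_mul_of_nonneg_left hsr hc.le
        _ = c * (N / (2 * T)) + c := by ring
        _ ≤ _ := by linarith
    have g3 : c ≤ ε / 64 * N := by
      have : (1 : ℝ) ≤ 2 ^ i := one_le_pow₀ (by norm_num)
      nlinarith
    have g4 : 8 * (2 : ℝ) ^ i ≤ N := by
      have h1 : 0 ≤ 64 * c / ε * 2 ^ i := by positivity
      nlinarith
    have g5 : ε * (N / 2 - 2 ^ i) ≤ ε * (y * 2 ^ i) := mul_le_mul_of_nonneg_left (by linarith) hε.le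
    have g6 : ε / 8 * N ≤ ε * (y * 2 ^ i) - c * s := by
      have h1 : ε * (2 : ℝ) ^ i ≤ ε * (N / 8) := mul_le_mul_of_nonneg_left (by linarith) hε.le
      have h2 : 0 ≤ ε * (N : ℝ) := by positivity
      nlinarith
    calc ε / 8 * ((N : ℝ) / 2 ^ i) = (ε / 8 * N) / 2 ^ i := by ring
      _ ≤ (ε * (y * 2 ^ i) - c * s) / 2 ^ i := div_le_div_of_nonneg_right g6 hNr.le
      _ = ε * y - c * (s / 2 ^ i) := by field_simp
  have hnn : ∀ i : ℕ, (0 : ℝ) ≤ 1 / (i : ℝ) := fun i => by positivity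
  refine (sum_le_sum_of_subset_of_nonneg hsub fun i _ _ => hnn i).trans ?_
  refine (sum_biUnion_le' _ _ _ hnn).trans ?_
  have h1 : ∀ t ∈ range (T + 3), ∑ i ∈ ((Icc 1 J).filter (fun i => ε / 8 * (((N - t * s : ℕ) : ℝ) / 2 ^ i) <
      X ((N - t * s) / 2 ^ i))).filter (fun _ => N₀ ≤ N - t * s), 1 / (i : ℝ) ≤ C := by
    intro t _
    by_cases hN0 : N₀ ≤ N - t * s
    · refine le_trans (sum_le_sum_of_subset_of_nonneg (filter_subset _ _) fun i _ _ => hnn i) ?_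
      exact h (N - t * s) hN0
    · have : ((Icc 1 J).filter (fun i => ε / 8 * (((N - t * s : ℕ) : ℝ) / 2 ^ i) <
          X ((N - t * s) / 2 ^ i))).filter (fun _ => N₀ ≤ N - t * s) = ∅ := by
        rw [filter_eq_empty_iff]
        intro _ _
        exact hN0
      rw [this, sum_empty]
      exact hC
  refine (sum_le_sum h1).trans ?_
  rw [sum_const, card_range, nsmul_eq_mul]

end Pool.Agent.N781.E
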