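import Mathlib
import Pool.Agent.N781.E.Ell
import Pool.Agent.N781.E.Om
import Pool.Agent.N781.E.Sup

/-! Project E: final forms, with whole dyadic intervals. -/

set_option autoImplicit false

namespace Pool.Agent.N781.E

open Finset Pool.Agent.TH575.CW Pool.Agent.N781.A Pool.Agent.N781.FV Pool.Agent.N781.OM

lemma slow1 {k : ℕ} (a : Fin k → ℕ) (b : Fin k → ℤ) {G : Fin k → ℤ → ℂ} (hG : ∀ j m, ‖G j m‖ ≤ 1)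
    (u v : ℕ) (huv : u ≤ v) : |‖SS a b G v‖ - ‖SS a b G u‖| ≤ 1 * ((v : ℝ) - u) := by
  rw [one_mul]
  exact (abs_norm_sub_norm_le _ _).trans (SS_slow a b hG u v huv)

lemma slow2 {k : ℕ} (a : Fin k → ℕ) (b : Fin k → ℤ) {G G' : Fin k → ℤ → ℂ} (hG : ∀ j m, ‖G j m‖ ≤ 1)
    (hG' : ∀ j m, ‖G' j m‖ ≤ 1) (u v : ℕ) (huv : u ≤ v) :
    |‖SS a b G v - SS a b G' v‖ - ‖SS a b G u - SS a b G' u‖| ≤ 2 * ((v : ℝ) - u) := by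
  refine (abs_norm_sub_norm_le _ _).trans ?_
  have h1 := SS_slow a b hG u v huv
  have h2 := SS_slow a b hG' u v huv
  have h3 := norm_sub_le (SS a b G v - SS a b G u) (SS a b G' v - SS a b G' u)
  have e : SS a b G v - SS a b G' v - (SS a b G u - SS a b G' u) =
    (SS a b G v - SS a b G u) - (SS a b G' v - SS a b G' u) := by ring
  rw [e]
  linarith

theorem om_exc (k : ℕ) (a : Fin k → ℕ) (b : Fin k → ℤ) (hk : 0 < k) (ha : ∀ j, 1 ≤ a j) (ε : ℝ)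
    (hε : 0 < ε) : ∃ C : ℝ, ∀ J : ℕ, ∃ N₀ : ℕ, ∀ N : ℕ, N₀ ≤ N →
      ∀ (f : Fin k → ℕ → ℂ) (h : Fin k → ℕ → ℕ) (φ : Fin k → ℕ → ℂ),
        (∀ i n, ‖f i n‖ ≤ 1) → (∀ i (m n : ℕ), m.Coprime n → f i (m * n) = f i m * f i n) →
        (∀ p : ℕ, p.Prime → ∏ i, f i p = 1) →
        (∀ i (p m : ℕ), p.Prime → ¬ p ∣ m → h i (p * m) = h i m + 1) →
        (∀ i l, ‖φ i l‖ ≤ 1) →
        ∑ i ∈ exc (fun y => ‖SS a b (FO f h φ 0) y - SS a b (FO f h φ 1) y‖) ε J N, 1 / (i : ℝ) ≤ C := by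
  obtain ⟨C, hC⟩ := om_fixed k a b hk ha (ε / 8) (by positivity)
  obtain ⟨T, hT⟩ := sup_few 2 ε (by norm_num) hε
  refine ⟨T * max C 0, fun J => ?_⟩
  obtain ⟨N₀, hN₀⟩ := hC J
  obtain ⟨N₁, hN₁⟩ := hT J N₀
  refine ⟨N₁, fun N hN f h φ hf hm hone hh hφ => ?_⟩
  refine hN₁ _ (slow2 a b (FO_norm f h φ hf hφ 0) (FO_norm f h φ hf hφ 1)) (max C 0) (le_max_right _ _)
    (fun N' hN' => ?_) N hN
  exact (hN₀ N' hN' f h φ hf hm hone hh hφ).trans (le_max_left _ _)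

theorem inverse_exc (k : ℕ) (hk : 0 < k) (a : Fin k → ℕ) (b : Fin k → ℤ) (ha : ∀ j, 1 ≤ a j)
    (S : Set ℂ) (hS : S.Finite) (ε : ℝ) (hε : 0 < ε) :
    ∃ Q : ℕ, ∀ η : ℝ, 0 < η → ∃ U M : ℝ, ∀ T : ℕ, ∃ C : ℝ, ∀ J : ℕ, ∃ N₀ : ℕ, ∀ N : ℕ, N₀ ≤ N →
      ∀ f : Fin k → ℕ → ℂ, (∀ i, IsMult (f i)) →
      C < ∑ i ∈ exc (fun y => ‖SS a b (toZ f) y‖) ε J N, 1 / (i : ℝ) →
      ∃ (q : ℕ) (χ : DirichletCharacter ℂ q) (v : ℝ), 1 ≤ q ∧ q ≤ Q ∧ |v| ≤ U ∧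
        mass (fun p => ∏ i, f i p) χ v η T ≤ M ∧
        ((∀ p : ℕ, p.Prime → ∏ i, f i p ∈ S) → v = 0 ∧ dist2 (fun p => ∏ i, f i p) χ T ≤ M) := by
  obtain ⟨Q, hQ⟩ := fixed_inverse k hk a b ha S hS (ε / 8) (by positivity)
  obtain ⟨T1, hT1⟩ := sup_few 1 ε one_pos hε
  refine ⟨Q, fun η hη => ?_⟩
  obtain ⟨U, M, hUM⟩ := hQ η hη
  refine ⟨U, M, fun T => ?_⟩
  obtain ⟨C, hC⟩ := hUM T
  refine ⟨T1 * max C 0, fun J => ?_⟩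
  obtain ⟨N₀, hN₀⟩ := hC J
  obtain ⟨N₁, hN₁⟩ := hT1 J N₀
  refine ⟨N₁, fun N hN f hf hbig => ?_⟩
  by_contra hcon
  have h1 := hN₁ _ (slow1 a b (toZ_norm hf)) (max C 0) (le_max_right _ _) (fun N' hN' => by
    by_contra h2
    push Not at h2
    exact hcon (hN₀ N' hN' f hf (lt_of_le_of_lt (le_max_left _ _) h2))) N hN
  linarith

theorem qual_exc (k : ℕ) (hk : 0 < k) (a : Fin k → ℕ) (b : Fin k → ℤ) (ha : ∀ j, 1 ≤ a j)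
    (f : Fin k → ℕ → ℂ) (hf : ∀ i, IsMult (f i))
    (h : (∀ (q : ℕ) (χ : DirichletCharacter ℂ q) (v : ℝ), 1 ≤ q → ∃ η : ℝ, 0 < η ∧
        ∀ M : ℝ, ∃ T : ℕ, M < mass (fun p => ∏ i, f i p) χ v η T) ∨
      ((Set.range fun p : Nat.Primes => ∏ i, f i p).Finite ∧
        ∀ (q : ℕ) (χ : DirichletCharacter ℂ q), 1 ≤ q →
          ∀ M : ℝ, ∃ T : ℕ, M < dist2 (fun p => ∏ i, f i p) χ T))
    (ε : ℝ) (hε : 0 < ε) :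
    ∃ C : ℝ, ∀ J : ℕ, ∃ N₀ : ℕ, ∀ N : ℕ, N₀ ≤ N →
      ∑ i ∈ exc (fun y => ‖SS a b (toZ f) y‖) ε J N, 1 / (i : ℝ) ≤ C := by
  obtain ⟨C, hC⟩ := fixed_qual k hk a b ha f hf h (ε / 8) (by positivity)
  obtain ⟨T, hT⟩ := sup_few 1 ε one_pos hε
  refine ⟨T * max C 0, fun J => ?_⟩
  obtain ⟨N₀, hN₀⟩ := hC J
  obtain ⟨N₁, hN₁⟩ := hT J N₀
  exact ⟨N₁, fun N hN => hN₁ _ (slow1 a b (toZ_norm hf)) (max C 0) (le_max_right _ _)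
    (fun N' hN' => (hN₀ N' hN').trans (le_max_left _ _)) N hN⟩

end Pool.Agent.N781.E
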